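import Pool.Agent.H31.PP.Defs
import Pool.Agent.H42.PP.Koe

/-!
# [H31 PP VeG] the approach of the critical value (`Vee`)

PROOF. `br_rel`: `univ_cover` (H80/AJ/Cover, as in `koe_low`, `koe_small` of H1/PU/Koe) on `ball x (rho s / 2)`... : `o` is omitted, so `rho s * ‖deriv g x‖ / 32 ≤ ‖g x - o‖`; `distort_lip`: `‖g u - g x‖ ≤ KK ‖deriv g x‖ * ‖u - x‖ * const` for `u ∈ ball x t`, `t ≤ rho s / 2`.
`vee_geo`: `v = gg P Q c`. Given `ε`, let `n` be minimal such that some `y ∈ ball v (ε/2)` has `f^n y ∈ closure G` (`hit`). The set `f^n '' ball v (ε/2)` is preconnected in the sphere, contains `f^n v` which is not in `closure G` (`hvG`), and meets the closed set (compact, `hGR`) `closure G`, so it meets its frontier, which is the image of a subset of `frontier G`: `y1 ∈ ball v (ε/2)`,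
`f^n y1 = ζ ∈ frontier G`. `hfr`: `b', t`. `PS0 d P Q PA b' s'` with `rho s' = MM R δ * t`. `fibre` (H42/PP/Bas): `(n, a) ∈ IX P Q b'`, `br (n, a) ζ = y1`. `v ∈ PA` is omitted (`br_off`): `br_rel` with `o = v`: `‖y1 - a‖ ≤ ‖a - v‖ / 2`, so `‖a - v‖ ≤ 2 ‖y1 - v‖ < ε`. For `l ≤ n`: `pre`: `f^l a = y_l` (finite, `(n - l, y_l) ∈ IX P Q b'`), `f^l y1 = br (n - l, y_l) ζ`. If `l < n` and `y_l = u ∈ T`:
`0 ∈ PA` is omitted: `br_rel` with `o = 0`: `‖f^l y1 - u‖ ≤ (δ / (2 (R + δ))) * ‖u‖ < δ` (`u ∈ T ⊆ G ⊆ ball 0 R`), so `f^l y1 ∈ G` (`hδT`), against the minimality of `n`. So the orbit of `a` avoids `T` before the time `n`, and `f^n a = b' ∈ SS T`: `a ∈ SS T`, and so are the `y_l`. `z i = y_i` for `i ≤ n` (anything after): `Q (z i) ≠ 0` as `f (z i)` is finite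
(`rat_coe`, `pt`), `dg (z i) ≠ 0` as `f (z i) ∉ PA` (`br_off`) and critical values are in `PA` (`dg_of_off` in H1/PU/Main).
-/

set_option autoImplicit false

open Filter Topology Polynomial OnePoint Metric Set MeasureTheory

namespace Pool.Agent.H31.PP

open Pool.Agent.H44.Fatou Pool.Agent.H32.BT Pool.Agent.H80.AJ Pool.Agent.H35.EX Pool.Agent.H61.TT
open Pool.Agent.H79.Eul Pool.Agent.H79.Par Pool.Agent.H47.NN Pool.Agent.H71.Top
open Pool.Agent.H42.PP
open Pool.Agent.H1.PU (rho IX br Nice Av EE RR R1 g1 LAM KA EA Crt JP)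

variable {d : ℕ} {P Q : Polynomial ℂ} {PA : Set (OnePoint ℂ)} {x c : ℂ} {s : ℝ}

/-- the ratio of the radii -/
noncomputable def MM (R δ : ℝ) : ℝ := 1048576 * KK * (1 + R / δ)

/-- a branch is almost constant on a small disc, relative to the distance to an omitted point -/
theorem br_rel (h : PS0 d P Q PA x s) {p : ℕ × ℂ} (hp : p ∈ IX P Q x) {o : ℂ} (ho : (o : OnePoint ℂ) ∈ PA)
    {t : ℝ} (ht : 0 < t) (hts : 1024 * KK * t ≤ rho s) {u : ℂ} (hu : u ∈ ball x t) :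
    ‖br P Q x s p u - p.2‖ ≤ 1024 * KK * t / rho s * ‖p.2 - o‖ := by
  have hR := rho_pos h.s0
  have hK := one_le_KK
  have hK0 := KK_pos
  have hKt : t ≤ KK * t := le_mul_of_one_le_left ht.le hK
  have hG := br_spec h hp
  have hi := br_inj h hp
  have h1 : rho s * ‖deriv (br P Q x s p) x‖ / 16 ≤ ‖p.2 - o‖ := by
    by_contra hcon
    have h2 := univ_cover hR hG.diff hi
      (show o ∈ ball (br P Q x s p x) (rho s * ‖deriv (br P Q x s p) x‖ / 16) by
        rw [mem_ball, dist_eq_norm, hG.val, norm_sub_rev]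
        exact not_le.1 hcon)
    obtain ⟨w, hw, hwo⟩ := h2
    exact br_off h hp hw (by rw [hwo]; exact ho)
  have hux : ‖u - x‖ < t := by rwa [mem_ball, dist_eq_norm] at hu
  have hu2 : u ∈ closedBall x (rho s / 2) := by
    rw [mem_closedBall, dist_eq_norm]
    linarith
  have hx2 : x ∈ closedBall x (rho s / 2) := mem_closedBall_self (by positivity)
  have h3 := distort_lip hR hG.diff hi hu2 hx2 hx2
  rw [hG.val] at h3
  refine h3.trans ?_
  have h4 : KK * ‖deriv (br P Q x s p) x‖ * ‖u - x‖ ≤ KK * ‖deriv (br P Q x s p) x‖ * t :=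
    mul_le_mul_of_nonneg_left hux.le (by positivity)
  refine h4.trans ?_
  rw [div_mul_eq_mul_div, le_div_iff₀ hR]
  have h5 : 0 ≤ KK * t := by positivity
  have h6 : 0 ≤ KK * t * ‖p.2 - o‖ := mul_nonneg h5 (norm_nonneg _)
  calc KK * ‖deriv (br P Q x s p) x‖ * t * rho s
      = 16 * (KK * t) * (rho s * ‖deriv (br P Q x s p) x‖ / 16) := by ring
    _ ≤ 16 * (KK * t) * ‖p.2 - o‖ := mul_le_mul_of_nonneg_left h1 (by positivity)
    _ ≤ 1024 * KK * t * ‖p.2 - o‖ := by linarith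

theorem vee_geo (hs : Sys0 P Q PA) (hrd : RatD d P Q) (h0 : ((0 : ℂ) : OnePoint ℂ) ∈ PA)
    (h1 : ((1 : ℂ) : OnePoint ℂ) ∈ PA) (hv : ((gg P Q c : ℂ) : OnePoint ℂ) ∈ PA) {T G : Set ℂ} {δ R : ℝ}
    {b : Finset ℂ} (hGo : IsOpen G) (hGR : G ⊆ ball 0 R) (hδ : 0 < δ) (hδT : ∀ u ∈ T, ball u δ ⊆ G)
    (hvG : ∀ (n : ℕ), ∀ u ∈ closure G, (rat P Q)^[n] ((gg P Q c : ℂ) : OnePoint ℂ) ≠ (u : OnePoint ℂ))
    (hit : ∀ ε : ℝ, 0 < ε → ∃ z : ℂ, ‖z - gg P Q c‖ < ε ∧ ∃ (j : ℕ) (u : ℂ), u ∈ closure G ∧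
      (rat P Q)^[j] (z : OnePoint ℂ) = (u : OnePoint ℂ))
    (hfr : ∀ ζ ∈ frontier G, ∃ b' ∈ b, ∃ t : ℝ, 0 < t ∧ ‖ζ - b'‖ < t ∧ Off PA b' (MM R δ * t))
    (hb : ∀ b' ∈ b, b' ∈ SS P Q T) : Vee P Q c T b := by
  classical
  intro ε hε
  obtain ⟨v, hvdef⟩ : ∃ v, v = gg P Q c := ⟨_, rfl⟩
  rw [← hvdef] at hv hvG hit ⊢
  have hf : Continuous (rat P Q) := rat_continuous hs.cop
  have hex : ∃ n : ℕ, ∃ z u : ℂ, ‖z - v‖ < ε / 2 ∧ u ∈ closure G ∧
      (rat P Q)^[n] (z : OnePoint ℂ) = (u : OnePoint ℂ) := by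
    obtain ⟨z, hz, j, u, hu, hzu⟩ := hit (ε / 2) (half_pos hε)
    exact ⟨j, z, u, hz, hu, hzu⟩
  obtain ⟨n, ⟨z0, u0, hz0, hu0, hzu0⟩, hmin⟩ : ∃ n : ℕ, (∃ z u : ℂ, ‖z - v‖ < ε / 2 ∧ u ∈ closure G ∧
      (rat P Q)^[n] (z : OnePoint ℂ) = (u : OnePoint ℂ)) ∧ ∀ m < n, ¬ ∃ z u : ℂ, ‖z - v‖ < ε / 2 ∧
      u ∈ closure G ∧ (rat P Q)^[m] (z : OnePoint ℂ) = (u : OnePoint ℂ) :=
    ⟨Nat.find hex, Nat.find_spec hex, fun m hm => Nat.find_min hex hm⟩
  have hφ : Continuous (fun y : ℂ => (rat P Q)^[n] (y : OnePoint ℂ)) :=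
    (hf.iterate n).comp continuous_coe
  have hKc : IsCompact (closure G) :=
    Metric.isCompact_of_isClosed_isBounded isClosed_closure (Metric.isBounded_ball.subset hGR).closure
  have hKcl : IsClosed (((↑) : ℂ → OnePoint ℂ) '' closure G) := (hKc.image continuous_coe).isClosed
  have hUo : IsOpen ((fun y : ℂ => (rat P Q)^[n] (y : OnePoint ℂ)) ⁻¹' (((↑) : ℂ → OnePoint ℂ) '' G)) :=
    (isOpenEmbedding_coe.isOpenMap _ hGo).preimage hφ
  have hWo : IsOpen ((fun y : ℂ => (rat P Q)^[n] (y : OnePoint ℂ)) ⁻¹'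
      (((↑) : ℂ → OnePoint ℂ) '' closure G))ᶜ := (hKcl.preimage hφ).isOpen_compl
  have hz0B : z0 ∈ ball v (ε / 2) := by rwa [mem_ball, dist_eq_norm]
  obtain ⟨y1, hy1B, ζ, hζ, hy1⟩ : ∃ y1 ∈ ball v (ε / 2), ∃ ζ ∈ frontier G,
      (rat P Q)^[n] (y1 : OnePoint ℂ) = (ζ : OnePoint ℂ) := by
    by_contra hcon
    push Not at hcon
    have hsub : ball v (ε / 2) ⊆
        ((fun y : ℂ => (rat P Q)^[n] (y : OnePoint ℂ)) ⁻¹' (((↑) : ℂ → OnePoint ℂ) '' G)) ∪
        ((fun y : ℂ => (rat P Q)^[n] (y : OnePoint ℂ)) ⁻¹' (((↑) : ℂ → OnePoint ℂ) '' closure G))ᶜ := by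
      intro y hy
      by_cases hyW : ∃ u ∈ closure G, (rat P Q)^[n] (y : OnePoint ℂ) = (u : OnePoint ℂ)
      · obtain ⟨u, hu, e⟩ := hyW
        left
        by_cases huG : u ∈ G
        · exact ⟨u, huG, e.symm⟩
        · refine absurd e (hcon y hy u ?_)
          rw [hGo.frontier_eq]
          exact ⟨hu, huG⟩
      · right
        rintro ⟨u, hu, e⟩
        exact hyW ⟨u, hu, e.symm⟩
    have hvW : v ∈ ((fun y : ℂ => (rat P Q)^[n] (y : OnePoint ℂ)) ⁻¹'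
        (((↑) : ℂ → OnePoint ℂ) '' closure G))ᶜ := by
      rintro ⟨u, hu, e⟩
      exact hvG n u hu e.symm
    have hz0U : z0 ∈ (fun y : ℂ => (rat P Q)^[n] (y : OnePoint ℂ)) ⁻¹' (((↑) : ℂ → OnePoint ℂ) '' G) := by
      rcases hsub hz0B with h2 | h2
      · exact h2
      · exact absurd ⟨u0, hu0, hzu0.symm⟩ h2
    obtain ⟨y, -, ⟨u, hu, e⟩, hy2⟩ := (convex_ball v (ε / 2)).isPreconnected _ _ hUo hWo hsub
      ⟨z0, hz0B, hz0U⟩ ⟨v, mem_ball_self (half_pos hε), hvW⟩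
    exact hy2 ⟨u, subset_closure hu, e⟩
  obtain ⟨b', hb', t, ht, hζt, hoff⟩ := hfr ζ hζ
  have hR0 : 0 < R := by
    obtain ⟨w, hw⟩ : G.Nonempty := closure_nonempty_iff.1 ⟨ζ, frontier_subset_closure hζ⟩
    have h2 := hGR hw
    rw [mem_ball, dist_zero_right] at h2
    exact lt_of_le_of_lt (norm_nonneg _) h2
  have hK0 := KK_pos
  have hK1 := one_le_KK
  have hRδ : 0 < R / δ := by positivity
  have hMM : MM R δ = 1048576 * KK * (1 + R / δ) := rfl
  have hMpos : 0 < MM R δ := by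
    rw [hMM]
    positivity
  obtain ⟨s', hs'def⟩ : ∃ s' : ℝ, s' = MM R δ * t / (131072 * KK) := ⟨_, rfl⟩
  have hrho : rho s' = MM R δ * t := by
    rw [rho, hs'def]
    field_simp
  have hs'0 : 0 < s' := by
    rw [hs'def]
    positivity
  have hP : PS0 d P Q PA b' s' := ⟨hs, hrd, h0, h1, hs'0, by rw [hrho]; exact hoff⟩
  have hKt : 0 < KK * t := mul_pos hK0 ht
  have hKtR : 0 < KK * t * (R / δ) := mul_pos hKt hRδ
  have hts : 1024 * KK * t ≤ rho s' := by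
    rw [hrho, hMM]
    linarith
  have htr : t ≤ rho s' := by
    have h2 : t ≤ KK * t := le_mul_of_one_le_left ht.le hK1
    linarith
  have hrpos : 0 < rho s' := lt_of_lt_of_le ht htr
  have hζb : ζ ∈ ball b' t := by rwa [mem_ball, dist_eq_norm]
  have hζr : ζ ∈ ball b' (rho s') := ball_subset_ball htr hζb
  obtain ⟨a, haI, hya⟩ := fibre hP hζr hy1
  have hya' : y1 = br P Q b' s' (n, a) ζ := OnePoint.coe_injective hya
  have hq : 1024 * KK * t / rho s' = δ / (1024 * (δ + R)) := by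
    rw [hrho, hMM]
    field_simp
    ring
  have hq1 : 1024 * KK * t / rho s' ≤ 1 / 2 := by
    rw [hq, div_le_div_iff₀ (by positivity) two_pos]
    linarith
  have hqR : 1024 * KK * t / rho s' * R < δ := by
    rw [hq, div_mul_eq_mul_div, div_lt_iff₀ (by positivity)]
    nlinarith [mul_pos hδ hR0, mul_pos hδ hδ]
  have hy1v : ‖y1 - v‖ < ε / 2 := by rwa [mem_ball, dist_eq_norm] at hy1B
  have hav : ‖a - v‖ < ε := by
    have h2 := br_rel hP haI hv ht hts hζb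
    rw [← hya'] at h2
    have h3 : ‖y1 - a‖ ≤ 1 / 2 * ‖a - v‖ := h2.trans (mul_le_mul_of_nonneg_right hq1 (norm_nonneg _))
    have h5 : ‖a - v‖ ≤ ‖y1 - a‖ + ‖y1 - v‖ := by
      have h6 : a - v = -(y1 - a) + (y1 - v) := by ring
      rw [h6]
      exact (norm_add_le _ _).trans (by rw [norm_neg])
    linarith
  have hpre : ∀ l : ℕ, ∃ y : ℂ, l ≤ n → (rat P Q)^[l] (a : OnePoint ℂ) = (y : OnePoint ℂ) ∧
      (n - l, y) ∈ IX P Q b' ∧
      (rat P Q)^[l] (y1 : OnePoint ℂ) = (br P Q b' s' (n - l, y) ζ : OnePoint ℂ) := by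
    intro l
    by_cases hl : l ≤ n
    · obtain ⟨y, hy1', hy2, hy3⟩ := pre hP haI hl
      exact ⟨y, fun _ => ⟨hy1', hy2, by rw [hya']; exact hy3 ζ hζr⟩⟩
    · exact ⟨0, fun h => absurd h hl⟩
  choose z hz using hpre
  have hzT : ∀ l < n, z l ∉ T := by
    intro l hl hT
    obtain ⟨e1, e2, e3⟩ := hz l hl.le
    have h2 := br_rel hP e2 h0 ht hts hζb
    have h3 : ‖br P Q b' s' (n - l, z l) ζ - z l‖ < δ := by
      refine lt_of_le_of_lt h2 ?_
      have h4 : ‖z l - 0‖ ≤ R := by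
        rw [sub_zero]
        have h5 := hGR (hδT _ hT (mem_ball_self hδ))
        rw [mem_ball, dist_zero_right] at h5
        exact h5.le
      exact lt_of_le_of_lt (mul_le_mul_of_nonneg_left h4 (by positivity)) hqR
    exact hmin l hl ⟨y1, br P Q b' s' (n - l, z l) ζ, hy1v,
      subset_closure (hδT _ hT (by rwa [mem_ball, dist_eq_norm])), e3⟩
  have hfa : (rat P Q)^[n] (a : OnePoint ℂ) = (b' : OnePoint ℂ) := haI
  have haS : a ∈ SS P Q T := by
    intro m u hu he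
    by_cases hm : m < n
    · obtain ⟨e1, -, -⟩ := hz m hm.le
      rw [e1] at he
      exact hzT m hm (OnePoint.coe_injective he ▸ hu)
    · obtain ⟨k, rfl⟩ := Nat.exists_eq_add_of_le (not_lt.1 hm)
      rw [Nat.add_comm, Function.iterate_add_apply, hfa] at he
      exact hb b' hb' k u hu he
  have hstep : ∀ i < n, rat P Q (z i : OnePoint ℂ) = (z (i + 1) : OnePoint ℂ) := by
    intro i hi
    rw [← (hz i hi.le).1, ← (hz (i + 1) hi).1, Function.iterate_succ_apply']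
  have hPA : ∀ i ≤ n, (z i : OnePoint ℂ) ∉ PA := by
    intro i hi
    have h2 := br_off hP (hz i hi).2.1 (c_mem hP)
    rwa [br_c hP (hz i hi).2.1] at h2
  refine ⟨n, z, fun i hi => ?_, ?_, fun i hi => ?_, ?_⟩
  · have hQ : Q.eval (z i) ≠ 0 := by
      intro h2
      have h3 := hstep i hi
      have h4 : rat P Q (z i : OnePoint ℂ) = ∞ := by
        rw [rat_coe]
        unfold pt
        rw [if_pos h2]
      rw [h4] at h3
      exact OnePoint.infty_ne_coe _ h3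
    have h3 := hstep i hi
    rw [rat_coe_of_ne hQ] at h3
    refine ⟨hQ, (OnePoint.coe_injective h3).symm, ?_⟩
    rw [Pool.Agent.H61.TT.dg_ne hQ]
    intro h4
    have h5 := hs.crit _ (crit_of_wr hs.cop hs.deg h4)
    rw [hstep i hi] at h5
    exact hPA (i + 1) hi h5
  · have h2 : z n = b' := by
      have h3 := (hz n le_rfl).1
      rw [hfa] at h3
      exact (OnePoint.coe_injective h3).symm
    rw [h2]
    exact hb'
  · intro m u hu he
    rw [← (hz i hi).1, ← Function.iterate_add_apply] at he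
    exact haS (m + i) u hu he
  · have h2 : z 0 = a := by
      have h3 : (a : OnePoint ℂ) = (z 0 : OnePoint ℂ) := (hz 0 (Nat.zero_le _)).1
      exact (OnePoint.coe_injective h3).symm
    rw [h2]
    exact hav

end Pool.Agent.H31.PP
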