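import Pool.Agent.H31.PP.Mn
import Pool.Agent.H31.PP.VeG

/-!
# [H31 PP Geo] the geometry (neighbourhoods, markers, cut-off function), common to both cases

`K1` is a compact set of the plane with `c ∈ K1` (the part `P1` of the post-critical set, and the base point in the conservative case); `PA` minus `K1` is closed. `Mkr`: a marker. `pp_core`: the contradiction from markers everywhere off `PA` and disc data.
PROOF. (1) `PB = PA \ K1` (image) is closed, its preimage in the plane is closed and disjoint from the compact `K1`: `η0 > 0` with `cthickening (2 η0) K1` disjoint from it (`Disjoint.exists_cthickenings` or `IsCompact.exists_cthickening_subset_open`). `G = thickening η0 K1`, `closure G ⊆ cthickening η0 K1`, so `G`, `closure G` meet `PA` only in `K1`; `R > 0` with `G ⊆ ball 0 R`; `δ = η0 / 2`: `ball u δ ⊆ G` for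
`u ∈ thickening (η0/2) K1`. (2) `ζ ∈ frontier G` is in `closure G`, not in `G ⊇ K1`, so not in `PA`: `r > 0` with `ball ζ r` off `PA` (`sys.closed`; `exists_off`, H80/AJ). `t = r / (2 (MM R δ + 1))`, `hmk` with `ε = t / 2`: a marker `b'`. `ball b' (MM R δ * t) ⊆ ball ζ r`. The frontier is compact: finitely many balls `ball ζ (t/2)` cover it, `b` = the finset of the markers (`IsCompact.elim_nhds_subcover`,
`Finset.image`). (3) `η1 > 0`, `η1 ≤ η0 / 2`, `η1 ≤` the number `η` of every marker in `b`. `T = thickening η1 K1`: open, `b' ∈ SS T` (`thickening_mono`), `T ∩ PA ⊆ K1`. (4) `exists_contMDiffMap_one_nhds_of_subset_interior` (Mathlib.Geometry.Manifold.PartitionOfUnity; the set `thickening (η1/2) K1`), `χ` = the function with values in `ℂ`: `ContDiff ℝ 1` (`contMDiff_iff_contDiff`), compact support (closed and bounded),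
`tsupport χ ⊆ closure (thickening (η1/2) K1) ⊆ cthickening (η1/2) K1 ⊆ T` (`closure_thickening_subset_cthickening`, `cthickening_subset_thickening'`), `χ = 1` near `K1`. So `dbar1 χ = 0` near `K1`: `tsupport (dbar1 χ)` does not meet `K1`, it is in `T`, so it is off `PA`. (5) `hds T`: `A, B0, U`. `PD3`: `vS`: `f^n v ∈ PA` (`iter_mem`), `T ∩ PA ⊆ K1`, `hvK`;
`t0`, `t1`: `0, 1 ∈ PA`, not in `K1`; `vee`: `vee_geo` (`hit`: `c ∈ K1 ⊆ G`); `bPA`: the centre of `ball b' (MM R δ * t)`; `vm`: `Mkr`. `pp_false`.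
-/

set_option autoImplicit false

open Filter Topology Polynomial OnePoint Metric Set MeasureTheory

namespace Pool.Agent.H31.PP

open Pool.Agent.H44.Fatou Pool.Agent.H32.BT Pool.Agent.H80.AJ Pool.Agent.H35.EX Pool.Agent.H61.TT
open Pool.Agent.H79.Eul Pool.Agent.H79.Par Pool.Agent.H47.NN Pool.Agent.H71.Top
open Pool.Agent.H42.PP
open Pool.Agent.H1.PU (rho IX br Nice Av EE RR R1 g1 LAM KA EA Crt JP)

variable {d : ℕ} {v : E d} {PA : Set (OnePoint ℂ)} {c : ℂ} {K1 : Set ℂ}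

/-- a marker: its orbit stays away from `K1`, and the velocities of the points which land at it are bounded -/
def Mkr {d : ℕ} (v : E d) (K1 : Set ℂ) (b : ℂ) : Prop :=
  (∃ η : ℝ, 0 < η ∧ b ∈ SS (pol v.1) (pol v.2) (thickening η K1)) ∧
    ∀ T : Set ℂ, b ∈ SS (pol v.1) (pol v.2) T → VM v (SS (pol v.1) (pol v.2) T) b

private theorem geo_min {ι : Type} (F : Finset ι) (f : ι → ℝ) (hf : ∀ x ∈ F, 0 < f x) {a : ℝ} (ha : 0 < a) :
    ∃ e : ℝ, 0 < e ∧ e ≤ a ∧ ∀ x ∈ F, e ≤ f x := by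
  classical
  induction F using Finset.induction_on with
  | empty => exact ⟨a, ha, le_rfl, fun x hx => absurd hx (Finset.notMem_empty x)⟩
  | insert y F hy ih =>
    obtain ⟨e, h1, h2, h3⟩ := ih fun x hx => hf x (Finset.mem_insert_of_mem hx)
    refine ⟨min e (f y), lt_min h1 (hf y (Finset.mem_insert_self y F)), (min_le_left _ _).trans h2, fun x hx => ?_⟩
    rcases Finset.mem_insert.1 hx with rfl | hx
    · exact min_le_right _ _
    · exact (min_le_left _ _).trans (h3 x hx)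

/-- a smooth cut-off function for a compact set -/
private theorem geo_cut (hK : IsCompact K1) {η : ℝ} (hη : 0 < η) : ∃ χ : ℂ → ℂ, ContDiff ℝ 1 χ ∧ HasCompactSupport χ ∧
    tsupport χ ⊆ thickening η K1 ∧ ∀ x ∈ K1, ∀ᶠ y in 𝓝 x, χ y = 1 := by
  have h2 : 0 < η / 2 := by linarith
  have hsub : K1 ⊆ interior (cthickening (η / 2) K1) :=
    (self_subset_thickening h2 K1).trans (interior_maximal (thickening_subset_cthickening _ _) isOpen_thickening)
  obtain ⟨f, hf1, hf0, -⟩ := exists_contMDiffMap_one_nhds_of_subset_interior (n := (⊤ : ℕ∞))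
    (modelWithCornersSelf ℝ ℂ) hK.isClosed hsub
  have hz : ∀ x, x ∉ cthickening (η / 2) K1 → ((f x : ℝ) : ℂ) = 0 := fun x hx => by rw [hf0 x hx, Complex.ofReal_zero]
  refine ⟨fun z => ((f z : ℝ) : ℂ), ?_, HasCompactSupport.intro hK.cthickening hz, ?_, fun x hx => ?_⟩
  · have h3 : ContDiff ℝ 1 f := f.contMDiff.contDiff.of_le (by exact_mod_cast le_top)
    exact Complex.ofRealCLM.contDiff.comp h3
  · refine (closure_minimal (fun x hx => ?_) isClosed_cthickening).trans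
      (cthickening_subset_thickening' hη (half_lt_self hη) K1)
    by_contra hcon
    exact hx (hz x hcon)
  · have h3 := eventually_nhdsSet_iff_forall.1 hf1 x hx
    filter_upwards [h3] with y hy
    rw [hy, Complex.ofReal_one]

private theorem geo_dbar {χ : ℂ → ℂ} {x a : ℂ} (h : ∀ᶠ y in 𝓝 x, χ y = a) : x ∉ tsupport (dbar1 χ) := by
  rw [notMem_tsupport_iff_eventuallyEq]
  filter_upwards [eventually_eventually_nhds.2 h] with y hy
  have h2 : χ =ᶠ[𝓝 y] fun _ => a := hy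
  unfold dbar1
  rw [h2.fderiv_eq]
  simp

theorem pp_core (rd : RatD d (pol v.1) (pol v.2)) (sys : Sys0 (pol v.1) (pol v.2) PA)
    (z0 : ((0 : ℂ) : OnePoint ℂ) ∈ PA) (z1 : ((1 : ℂ) : OnePoint ℂ) ∈ PA)
    (crt : Crt (pol v.1) (pol v.2) c)
    (vPA : ((gg (pol v.1) (pol v.2) c : ℂ) : OnePoint ℂ) ∈ PA)
    (hK : IsCompact K1) (hcK : c ∈ K1)
    (hsep : IsClosed (PA \ (fun z : ℂ => (z : OnePoint ℂ)) '' K1))
    (h0 : (0 : ℂ) ∉ K1) (h1 : (1 : ℂ) ∉ K1)
    (hvK : ∀ (n : ℕ), ∀ u ∈ K1,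
      (rat (pol v.1) (pol v.2))^[n] ((gg (pol v.1) (pol v.2) c : ℂ) : OnePoint ℂ) ≠ (u : OnePoint ℂ))
    (hit : ∀ ε : ℝ, 0 < ε → ∃ z : ℂ, ‖z - gg (pol v.1) (pol v.2) c‖ < ε ∧
      ∃ j : ℕ, (rat (pol v.1) (pol v.2))^[j] (z : OnePoint ℂ) = (c : OnePoint ℂ))
    (hmk : ∀ ζ : ℂ, (ζ : OnePoint ℂ) ∉ PA → ζ ∉ K1 → ∀ ε : ℝ, 0 < ε →
      ∃ b : ℂ, ‖b - ζ‖ < ε ∧ Mkr v K1 b)
    (hds : ∀ T : Set ℂ, IsOpen T → K1 ⊆ T → (∀ x ∈ T, (x : OnePoint ℂ) ∈ PA → x ∈ K1) →
      ∃ (A B0 : Set ℂ) (U : ℂ → ℂ → ℂ),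
        UD d (pol v.1) (pol v.2) (insert c (SS (pol v.1) (pol v.2) T)) B0
          (gg (pol v.1) (pol v.2) c) U ∧
        ∀ x ∈ T, (x : OnePoint ℂ) ∉ PA → x ∉ K1 →
          ∃ s : ℝ, Dsc d (pol v.1) (pol v.2) PA A B0 T c x s) : False := by
  classical
  -- (1)
  obtain ⟨PB, hPB⟩ : ∃ PB : Set ℂ, PB = (fun z : ℂ => (z : OnePoint ℂ)) ⁻¹' (PA \ (fun z : ℂ => (z : OnePoint ℂ)) '' K1) :=
    ⟨_, rfl⟩
  have hPBc : IsClosed PB := by
    rw [hPB]
    exact hsep.preimage OnePoint.continuous_coe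
  have hdis : Disjoint K1 PB := by
    rw [Set.disjoint_left]
    intro x hx hx'
    rw [hPB] at hx'
    exact hx'.2 ⟨x, hx, rfl⟩
  obtain ⟨η₀, hη₀, hd⟩ := hdis.exists_cthickenings hK hPBc
  obtain ⟨G, hG⟩ : ∃ G : Set ℂ, G = thickening η₀ K1 := ⟨_, rfl⟩
  have hKG : K1 ⊆ G := by rw [hG]; exact self_subset_thickening hη₀ K1
  have hGo : IsOpen G := by rw [hG]; exact isOpen_thickening
  have hGPA : ∀ u ∈ closure G, (u : OnePoint ℂ) ∈ PA → u ∈ K1 := by
    intro u hu huA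
    by_contra hcon
    have h2 : u ∈ cthickening η₀ K1 := by
      rw [hG] at hu
      exact closure_thickening_subset_cthickening _ _ hu
    have h3 : u ∈ PB := by
      rw [hPB]
      refine ⟨huA, ?_⟩
      rintro ⟨w, hw, hwu⟩
      rw [OnePoint.coe_injective hwu] at hw
      exact hcon hw
    exact Set.disjoint_left.1 hd h2 (self_subset_cthickening PB h3)
  have hGb : Bornology.IsBounded G := by
    rw [hG]
    exact hK.isBounded.thickening
  obtain ⟨R, hR0, hGR⟩ := hGb.subset_ball_lt 0 0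
  obtain ⟨δ, hδ⟩ : ∃ δ, δ = η₀ / 2 := ⟨_, rfl⟩
  have hδ0 : 0 < δ := by rw [hδ]; linarith
  have hδG : ∀ u ∈ thickening (η₀ / 2) K1, ball u δ ⊆ G := by
    intro u hu w hw
    rw [mem_thickening_iff] at hu
    obtain ⟨z, hz, hzu⟩ := hu
    rw [hG, mem_thickening_iff]
    refine ⟨z, hz, ?_⟩
    have := dist_triangle w u z
    rw [mem_ball, hδ] at hw
    linarith
  have hM0 : 0 < MM R δ := by
    unfold MM
    have h2 := KK_pos
    positivity
  -- (2)
  have hfr : ∀ ζ ∈ frontier G, ζ ∉ K1 ∧ (ζ : OnePoint ℂ) ∉ PA := by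
    intro ζ hζ
    have h2 : ζ ∉ G := by
      rw [hGo.frontier_eq] at hζ
      exact hζ.2
    have h3 : ζ ∉ K1 := fun h3 => h2 (hKG h3)
    exact ⟨h3, fun h4 => h3 (hGPA ζ (frontier_subset_closure hζ) h4)⟩
  have hex : ∀ ζ ∈ frontier G, ∃ (b' : ℂ) (t : ℝ), 0 < t ∧ ‖b' - ζ‖ < t / 2 ∧ Off PA b' (MM R δ * t) ∧ Mkr v K1 b' := by
    intro ζ hζ
    obtain ⟨h2, h3⟩ := hfr ζ hζ
    obtain ⟨r, hr, hoff⟩ := exists_off sys.closed h3
    obtain ⟨t, ht⟩ : ∃ t, t = r / (MM R δ + 1) := ⟨_, rfl⟩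
    have ht0 : 0 < t := by rw [ht]; positivity
    have htr : t * (MM R δ + 1) = r := by rw [ht]; field_simp
    obtain ⟨b', hb1, hb2⟩ := hmk ζ h3 h2 (t / 2) (by linarith)
    refine ⟨b', t, ht0, hb1, fun u hu => hoff u ?_, hb2⟩
    rw [mem_ball] at hu ⊢
    have h4 := dist_triangle u b' ζ
    rw [dist_eq_norm b' ζ] at h4
    nlinarith
  choose! fb ft hft0 hfb hfo hfm using hex
  have hfc : IsCompact (frontier G) :=
    Metric.isCompact_of_isClosed_isBounded isClosed_frontier (hGb.closure.subset frontier_subset_closure)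
  obtain ⟨F, hF1, hF2⟩ := hfc.elim_nhds_subcover (fun ζ => ball ζ (ft ζ / 2)) fun ζ hζ =>
    ball_mem_nhds ζ (by have := hft0 ζ hζ; linarith)
  obtain ⟨b, hb⟩ : ∃ b, b = F.image fb := ⟨_, rfl⟩
  -- (3)
  have hmη : ∀ ζ ∈ frontier G, ∃ η : ℝ, 0 < η ∧ fb ζ ∈ SS (pol v.1) (pol v.2) (thickening η K1) :=
    fun ζ hζ => (hfm ζ hζ).1
  choose! fη hη0 hηS using hmη
  obtain ⟨η₁, hη₁, hη₁', hη₁F⟩ := geo_min F fη (fun x hx => hη0 x (hF1 x hx)) (half_pos hη₀)
  obtain ⟨T, hT⟩ : ∃ T : Set ℂ, T = thickening η₁ K1 := ⟨_, rfl⟩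
  have hTo : IsOpen T := by rw [hT]; exact isOpen_thickening
  have hKT : K1 ⊆ T := by rw [hT]; exact self_subset_thickening hη₁ K1
  have hTG : T ⊆ G := by rw [hT, hG]; exact thickening_mono (by linarith) K1
  have hTPA : ∀ x ∈ T, (x : OnePoint ℂ) ∈ PA → x ∈ K1 := fun x hx => hGPA x (subset_closure (hTG hx))
  have hbS : ∀ b' ∈ b, b' ∈ SS (pol v.1) (pol v.2) T := by
    intro b' hb'
    rw [hb, Finset.mem_image] at hb'
    obtain ⟨ζ, hζ, rfl⟩ := hb'
    intro n u hu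
    refine hηS ζ (hF1 ζ hζ) n u ?_
    rw [hT] at hu
    exact thickening_mono (hη₁F ζ hζ) K1 hu
  -- (4)
  obtain ⟨χ, hχ1, hχ2, hχ3, hχ4⟩ := geo_cut hK hη₁
  rw [← hT] at hχ3
  have hcut : Cut PA T c χ := by
    refine ⟨hχ1, hχ2, hχ3, hχ4 c hcK, fun x hx hxA => ?_⟩
    have h2 : x ∈ tsupport χ := by
      by_contra hcon
      refine geo_dbar (a := 0) ?_ hx
      exact notMem_tsupport_iff_eventuallyEq.1 hcon
    exact geo_dbar (hχ4 x (hTPA x (hχ3 h2) hxA)) hx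
  -- (5)
  obtain ⟨A, B0, U, hUD, hcov⟩ := hds T hTo hKT hTPA
  have hvG : ∀ (n : ℕ), ∀ u ∈ closure G,
      (rat (pol v.1) (pol v.2))^[n] ((gg (pol v.1) (pol v.2) c : ℂ) : OnePoint ℂ) ≠ (u : OnePoint ℂ) := by
    intro n u hu he
    have h2 : (u : OnePoint ℂ) ∈ PA := by
      rw [← he]
      exact iter_mem sys.inv vPA n
    exact hvK n u (hGPA u hu h2) he
  have hcov' : ∀ x ∈ tsupport (dbar1 χ), ∃ s : ℝ, Dsc d (pol v.1) (pol v.2) PA A B0 T c x s := by
    intro x hx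
    have h2 : x ∈ tsupport χ := by
      by_contra hcon
      refine geo_dbar (a := 0) ?_ hx
      exact notMem_tsupport_iff_eventuallyEq.1 hcon
    exact hcov x (hχ3 h2) (hcut.off x hx) fun h3 => geo_dbar (hχ4 x h3) hx
  refine pp_false (v := v) (PA := PA) (c := c) (A := A) (B0 := B0) (T := T) (U := U) (χ := χ) (b := b)
    ⟨rd, sys, z0, z1, crt, vPA, fun n u hu => hvG n u (subset_closure (hTG hu)), hcut,
      fun h2 => h0 (hTPA 0 h2 z0), fun h2 => h1 (hTPA 1 h2 z1), hcov', hUD, fun x hx => ?_, ?_, fun x hx => ?_⟩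
  · rw [hb, Finset.mem_image] at hx
    obtain ⟨ζ, hζ, rfl⟩ := hx
    have h2 := hft0 ζ (hF1 ζ hζ)
    exact hfo ζ (hF1 ζ hζ) _ (mem_ball_self (by positivity))
  · refine vee_geo sys rd z0 z1 vPA hGo hGR hδ0 (fun u hu => hδG u ?_) hvG (fun ε hε => ?_) (fun ζ hζ => ?_) hbS
    · rw [hT] at hu
      exact thickening_mono hη₁' K1 hu
    · obtain ⟨z, hz, j, hj⟩ := hit ε hε
      exact ⟨z, hz, j, c, subset_closure (hKG hcK), hj⟩
    · have h2 := hF2 hζ
      simp only [Set.mem_iUnion] at h2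
      obtain ⟨x, hx, hxζ⟩ := h2
      refine ⟨fb x, ?_, ft x, hft0 x (hF1 x hx), ?_, hfo x (hF1 x hx)⟩
      · rw [hb, Finset.mem_image]
        exact ⟨x, hx, rfl⟩
      · rw [mem_ball, dist_eq_norm] at hxζ
        have h3 := hfb x (hF1 x hx)
        have h4 : ζ - fb x = (ζ - x) - (fb x - x) := by ring
        rw [h4]
        have h5 := norm_sub_le (ζ - x) (fb x - x)
        linarith
  · have h2 := hbS x hx
    rw [hb, Finset.mem_image] at hx
    obtain ⟨ζ, hζ, rfl⟩ := hx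
    exact (hfm ζ (hF1 ζ hζ)).2 T h2

end Pool.Agent.H31.PP
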