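import Pool.Agent.H31.PP.Defs
import Pool.Agent.H42.PP.Maj

/-!
# [H31 PP Wnd] disc data in the dissipative case (`A = ∅`, wandering discs)

PROOF. `win_wan`: if `z = br p w = br q w'`, `w, w' ∈ ball x' r'`, then `f^(p.1) z = w`, `f^(q.1) z = w'` (`br_inv`); if `p.1 < q.1` then `f^(q.1 - p.1) w = w'`, against `hw`; so `p.1 = q.1` and `w = w'`, `same` (H42/PP/Bas): `p = q`. `R1 P Q x ∅` is empty (`p.2 ∈ ∅`). `dsc_wan`: `mj_win` (H42/PP/Maj) with `N0 = 1`.
-/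

set_option autoImplicit false

open Filter Topology Polynomial OnePoint Metric Set MeasureTheory

namespace Pool.Agent.H31.PP

open Pool.Agent.H44.Fatou Pool.Agent.H32.BT Pool.Agent.H80.AJ Pool.Agent.H35.EX Pool.Agent.H61.TT
open Pool.Agent.H79.Eul Pool.Agent.H79.Par Pool.Agent.H47.NN Pool.Agent.H71.Top
open Pool.Agent.H42.PP
open Pool.Agent.H1.PU (rho IX br Nice Av EE RR R1 g1 LAM KA EA Crt JP)

variable {d : ℕ} {P Q : Polynomial ℂ} {PA : Set (OnePoint ℂ)} {x c : ℂ} {s : ℝ} {T : Set ℂ}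

theorem r1_empty : R1 P Q x ∅ = ∅ := by
  rw [Set.eq_empty_iff_forall_notMem]
  intro p hp
  exact hp.2.2.1

theorem win_wan (h : PS0 d P Q PA x s) {x' : ℂ} {r' : ℝ} (hr : 0 < r') (hs : ball x' r' ⊆ ball x s)
    (hw : ∀ n : ℕ, 0 < n → ∀ z ∈ ball x' r', ∀ z' ∈ ball x' r',
      (rat P Q)^[n] (z : OnePoint ℂ) ≠ (z' : OnePoint ℂ)) :
    Win P Q x s (EE P Q x ∅ ∪ R1 P Q x ∅) x' r' 1 := by
  have hball : ball x' r' ⊆ ball x (rho s) := by
    refine hs.trans (ball_subset_ball ?_)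
    have h1 := rho_ge h.s0
    have h2 := h.s0
    linarith
  have key : ∀ p ∈ IX P Q x, ∀ q ∈ IX P Q x, ∀ w ∈ ball x' r', ∀ w' ∈ ball x' r',
      br P Q x s p w = br P Q x s q w' → ¬ p.1 < q.1 := by
    intro p hpi q hqi w hwW w' hw'W he hlt
    have h1 := br_inv h hpi (hball hwW)
    have h2 := br_inv h hqi (hball hw'W)
    rw [← he] at h2
    have h3 : (rat P Q)^[q.1 - p.1] ((rat P Q)^[p.1] (br P Q x s p w : OnePoint ℂ)) =
        (w' : OnePoint ℂ) := by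
      rw [← Function.iterate_add_apply, Nat.sub_add_cancel hlt.le]
      exact h2
    rw [h1] at h3
    exact hw (q.1 - p.1) (Nat.sub_pos_of_lt hlt) w hwW w' hw'W h3
  have hix : ∀ p ∈ EE P Q x ∅ ∪ R1 P Q x ∅, p ∈ IX P Q x := by
    intro p hp
    rcases hp with hp | hp
    · exact hp.1
    · exact hp.1
  refine ⟨hr, hs, one_pos, ?_⟩
  intro p hp q hq hpq _
  rw [Set.disjoint_left]
  rintro z ⟨w, hwW, hw1⟩ ⟨w', hw'W, hw2⟩
  apply hpq
  have hpi := hix p hp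
  have hqi := hix q hq
  have he : br P Q x s p w = br P Q x s q w' := by rw [hw1, hw2]
  have hpq' : p.1 = q.1 := by
    rcases lt_trichotomy p.1 q.1 with h1 | h1 | h1
    · exact absurd h1 (key p hpi q hqi w hwW w' hw'W he)
    · exact h1
    · exact absurd h1 (key q hqi p hpi w' hw'W w hwW he.symm)
  have h1 := br_inv h hpi (hball hwW)
  have h2 := br_inv h hqi (hball hw'W)
  rw [← he, ← hpq', h1] at h2
  have h3 : w = w' := OnePoint.coe_injective h2
  rw [← h3] at he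
  exact same h hpi hqi hpq' (hball hwW) he

theorem dsc_wan (h : PS0 d P Q PA x s) {x' : ℂ} {r' : ℝ} (hr : 0 < r') (hs : ball x' r' ⊆ ball x s)
    (hw : ∀ n : ℕ, 0 < n → ∀ z ∈ ball x' r', ∀ z' ∈ ball x' r',
      (rat P Q)^[n] (z : OnePoint ℂ) ≠ (z' : OnePoint ℂ)) (hT : ball x (8 * s) ⊆ T)
    (hc : c ∉ ball x (8 * s)) : Dsc d P Q PA ∅ ∅ T c x s := by
  have hmj : Mj P Q x s ∅ := by
    refine mj_win h (win_wan h hr hs hw) (c' := 0) (R := 0) ?_
    intro p hp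
    rw [r1_empty] at hp
    exact hp.elim
  refine ⟨h, hmj, ?_, hT, hc⟩
  intro p hp _ _
  rw [r1_empty] at hp
  exact hp.elim

theorem ud_empty (d : ℕ) (P Q : Polynomial ℂ) (S : Set ℂ) (v : ℂ) : UD d P Q S ∅ v (fun _ _ => 0) := by
  refine ⟨isOpen_empty, by rw [measure_empty]; exact ENNReal.zero_ne_top, ?_, ?_, ?_, ?_⟩
  · intro z _
    exact ⟨differentiableOn_empty, 0, fun y hy => hy.elim⟩
  · intro z _
    exact ⟨differentiableOn_empty, 0, fun y hy => hy.elim⟩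
  · intro y hy
    exact hy.elim
  · intro ε _
    exact ⟨1, one_pos, fun z _ _ y hy => hy.elim⟩

end Pool.Agent.H31.PP
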