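import Pool.Agent.H42.PP.Defs
import Pool.Agent.H1.PU.Dat
import Pool.Agent.H71.Top.Pompeiu
import Pool.Agent.H50.ST.OPA

/-!
# THEOREM P+ (the component of a Julia critical point in the post-critical set): definitions, common part

`f = P / Q` of degree `d ≥ 2`, `PA` closed, forward invariant, with the critical values and the marks `0`, `1`, `∞` (as in H1/PU). `c` is the critical point, `P(f) = P1 + P2`, `c ∈ P1`, the orbit of the critical value in `P2`. `χ` is a cut-off function, `1` near `P1`, `0` near `P2`; `T` contains the support of `χ`.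

* `PS0`, `Mj` (H42/PP/Defs): the setting and the majorants for a centre `x` off `PA`; `EE P Q x A`, `R1 P Q x A`: the branches at `x` whose centre orbit avoids `A` (before the arrival), and those which start in `A` and avoid `A` afterwards.
* `SS T`: the points whose orbits never visit `T`.
* `Ovl`: bounded overlap: every point is in at most `N` of the sets `br p '' W`, `p ∈ F`; `W ⊆ ball x s` has positive area.
* `UD`: `U z y` is a solution of the equation of the resolvent for `y ∈ B0`; `S` is the set of the parameters `z`.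
* `Dsc`: the disc data at `x`. `SD z y`: the sum over all branches at `y ∈ ball x (6 s)`, where the branches which come from `A` are continued by `U`.
* `Cut`: the cut-off function. `VM`: bounded velocities of the points which land at the marker `b`. `PD3`: all data of the contradiction (`pp_false`).
-/

set_option autoImplicit false

open Filter Topology Polynomial OnePoint Metric Set MeasureTheory

namespace Pool.Agent.H31.PP

open Pool.Agent.H44.Fatou Pool.Agent.H32.BT Pool.Agent.H80.AJ Pool.Agent.H35.EX Pool.Agent.H61.TT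
open Pool.Agent.H79.Eul Pool.Agent.H79.Par Pool.Agent.H47.NN Pool.Agent.H1.PU Pool.Agent.H71.Top
open Pool.Agent.H42.PP (PS0 Mj BK)

/-- the points whose orbits never visit `T` -/
def SS (P Q : Polynomial ℂ) (T : Set ℂ) : Set ℂ :=
  {a | ∀ (n : ℕ) (u : ℂ), u ∈ T → (rat P Q)^[n] (a : OnePoint ℂ) ≠ (u : OnePoint ℂ)}

/-- bounded overlap of the images of `W` under the branches with index in `F` -/
structure Ovl (P Q : Polynomial ℂ) (x : ℂ) (s : ℝ) (F : Set (ℕ × ℂ)) (W : Set ℂ) (N : ℕ) : Prop where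
  meas : MeasurableSet W
  sub : W ⊆ ball x s
  pos : volume W ≠ 0
  ovl : ∀ (z : ℂ) (L : Finset (ℕ × ℂ)), (∀ p ∈ L, p ∈ F ∧ z ∈ br P Q x s p '' W) → L.card ≤ N

/-- a solution of the equation of the resolvent on `B0`; `S` is the set of the parameters, `v` the critical value -/
structure UD (d : ℕ) (P Q : Polynomial ℂ) (S B0 : Set ℂ) (v : ℂ) (U : ℂ → ℂ → ℂ) : Prop where
  op : IsOpen B0
  fin : volume B0 ≠ ⊤
  bd : ∀ z ∈ S, DifferentiableOn ℂ (U z) B0 ∧ ∃ M : ℝ, ∀ y ∈ B0, ‖U z y‖ ≤ M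
  kb : ∀ z ∈ S, DifferentiableOn ℂ (KA z) B0 ∧ ∃ M : ℝ, ∀ y ∈ B0, ‖KA z y‖ ≤ M
  idn : ∀ y ∈ B0, ∃ N : Polynomial ℂ, N.natDegree ≤ 2 * d ∧
    ∀ z ∈ S, Q.eval z ≠ 0 → Pool.Agent.H61.TT.dg P Q z * (U z y - KA z y) =
      U (gg P Q z) y + N.eval z / Q.eval z ^ 2
  cont : ∀ ε : ℝ, 0 < ε → ∃ δ : ℝ, 0 < δ ∧ ∀ z ∈ S, ‖z - v‖ < δ → ∀ y ∈ B0, ‖U z y - U v y‖ ≤ ε

/-- the disc data; `c` is the critical point -/
structure Dsc (d : ℕ) (P Q : Polynomial ℂ) (PA : Set (OnePoint ℂ)) (A B0 T : Set ℂ) (c x : ℂ) (s : ℝ) :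
    Prop where
  b : PS0 d P Q PA x s
  mj : Mj P Q x s A
  land : ∀ p ∈ R1 P Q x A, ∀ u ∈ ball x (6 * s), br P Q x s p u ∈ B0
  sub : ball x (8 * s) ⊆ T
  nc : c ∉ ball x (8 * s)

/-- the sum over all branches on the disc -/
noncomputable def SD (P Q : Polynomial ℂ) (A : Set ℂ) (U : ℂ → ℂ → ℂ) (x : ℂ) (s : ℝ) (z y : ℂ) : ℂ :=
  EA P Q x s A z y + Pool.H50.ST.Lop (g1 P Q x s A) (U z) y

/-- the cut-off function -/
structure Cut (PA : Set (OnePoint ℂ)) (T : Set ℂ) (c : ℂ) (χ : ℂ → ℂ) : Prop where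
  sm : ContDiff ℝ 1 χ
  cs : HasCompactSupport χ
  sub : tsupport χ ⊆ T
  one : ∀ᶠ x in 𝓝 c, χ x = 1
  off : ∀ x ∈ tsupport (dbar1 χ), (x : OnePoint ℂ) ∉ PA

/-- bounded velocities of the points which land at `b`; the velocity of `b` is `Ξ b` -/
def VM {d : ℕ} (v : E d) (S : Set ℂ) (b : ℂ) : Prop :=
  ∀ (w : E d) (Ξ : ℂ → ℂ), (∀ z ∈ S, (pol v.2).eval z ≠ 0 →
      Ξ (gg (pol v.1) (pol v.2) z) =
        Pool.Agent.H61.TT.dg (pol v.1) (pol v.2) z * Ξ z + xi v w z) →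
    ∃ C : ℝ, ∀ (k : ℕ) (z : ℕ → ℂ),
      (∀ i < k, (pol v.2).eval (z i) ≠ 0 ∧ z (i + 1) = gg (pol v.1) (pol v.2) (z i)) → z k = b →
      ∃ u : ℕ → ℂ, u k = Ξ b ∧
        (∀ i < k, u (i + 1) = Pool.Agent.H61.TT.dg (pol v.1) (pol v.2) (z i) * u i + xi v w (z i)) ∧
        ‖u 0‖ ≤ C * (1 + ‖z 0‖ ^ 2)

/-- orbits from points close to the critical value to the markers, outside `T` -/
def Vee (P Q : Polynomial ℂ) (c : ℂ) (T : Set ℂ) (b : Finset ℂ) : Prop :=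
  ∀ ε : ℝ, 0 < ε → ∃ (k : ℕ) (z : ℕ → ℂ),
    (∀ i < k, Q.eval (z i) ≠ 0 ∧ z (i + 1) = gg P Q (z i) ∧ Pool.Agent.H61.TT.dg P Q (z i) ≠ 0) ∧
    z k ∈ b ∧ (∀ i ≤ k, z i ∈ SS P Q T) ∧ ‖z 0 - gg P Q c‖ < ε

/-- the data of the contradiction -/
structure PD3 {d : ℕ} (v : E d) (PA : Set (OnePoint ℂ)) (c : ℂ) (A B0 T : Set ℂ) (U : ℂ → ℂ → ℂ)
    (χ : ℂ → ℂ) (b : Finset ℂ) : Prop where
  rd : RatD d (pol v.1) (pol v.2)
  sys : Sys0 (pol v.1) (pol v.2) PA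
  z0 : ((0 : ℂ) : OnePoint ℂ) ∈ PA
  z1 : ((1 : ℂ) : OnePoint ℂ) ∈ PA
  crt : Crt (pol v.1) (pol v.2) c
  vPA : ((gg (pol v.1) (pol v.2) c : ℂ) : OnePoint ℂ) ∈ PA
  vS : gg (pol v.1) (pol v.2) c ∈ SS (pol v.1) (pol v.2) T
  cut : Cut PA T c χ
  t0 : (0 : ℂ) ∉ T
  t1 : (1 : ℂ) ∉ T
  cov : ∀ x ∈ tsupport (dbar1 χ), ∃ s : ℝ, Dsc d (pol v.1) (pol v.2) PA A B0 T c x s
  ud : UD d (pol v.1) (pol v.2) (insert c (SS (pol v.1) (pol v.2) T)) B0 (gg (pol v.1) (pol v.2) c) U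
  bPA : ∀ x ∈ b, (x : OnePoint ℂ) ∉ PA
  vee : Vee (pol v.1) (pol v.2) c T b
  vm : ∀ x ∈ b, VM v (SS (pol v.1) (pol v.2) T) x

theorem ss_step (P Q : Polynomial ℂ) (T : Set ℂ) {a : ℂ} (ha : a ∈ SS P Q T) (hQ : Q.eval a ≠ 0) :
    gg P Q a ∈ SS P Q T := by
  intro n u hu he
  apply ha (n + 1) u hu
  rw [Function.iterate_succ_apply, rat_coe_of_ne hQ]
  exact he

theorem ss_lam {P Q : Polynomial ℂ} {x : ℂ} {s : ℝ} {T : Set ℂ} (hT : ball x (8 * s) ⊆ T) :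
    SS P Q T ⊆ LAM P Q x s := fun _ ha n u hu => ha n u (hT hu)

end Pool.Agent.H31.PP
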