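import Pool.Agent.H31.PP.Defs
import Pool.Agent.H50.ST.XiA

/-!
# [H31 PP Fun] the functional of the cut-off function

`PhiF χ c k K F`: the `k`-th derivative at `c` of `w ↦ -(1/π) ∫ y in K, dbar1 χ y * F y / (y - w)`.
PROOFS. Let `r0 > 0` with `χ = 1` on `ball c (2 r0)` (`h1`), so `dbar1 χ = 0` there (`χ` is locally constant: `Filter.EventuallyEq.fderiv_eq`). `dbar1 χ` is continuous with compact support, so integrable and bounded by `B`. `K ⊆ ball x s` is measurable, `s ≤ r`, `F` is continuous on `ball x r`, so `dbar1 χ * F` is measurable and bounded on `K`.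
For `w ∈ ball c r0` the integrand `dbar1 χ y * F y / (y - w)` is `0` if `y ∈ ball c (2 r0)` and `≤ B M / r0` otherwise; it is holomorphic in `w`: `H w` is holomorphic on `ball c r0` (`hasDerivAt_integral_of_dominated_loc_of_deriv_le`, derivative `∫ dbar1 χ y * F y / (y - w)^2`, bound `B M / r0^2`), `‖H w‖ ≤ C M`.
`phi_add`, `phi_smul`: linearity of the integral on `ball c r0`, `iteratedDeriv` of a sum of functions analytic near `c` (`iteratedDeriv_add`, `iteratedDeriv_const_mul_field`, `Filter.EventuallyEq.iteratedDeriv_eq`). `phi_bd`: Cauchy estimate `Complex.norm_iteratedDeriv_le_of_forall_mem_sphere_norm_le` on the circle of radius `r0 / 2`.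
`phi_congr`: `K ⊆ ball x r`. `phi_tot`: the functions `H_j` add up on `ball c r0` to `-(1/π) ∫ y, dbar1 χ y * F y / (y - w)` (the `K j` are disjoint, measurable and cover the support of `dbar1 χ`). With `F = KA z`, `0, 1, z ∉ tsupport χ`: the function `y ↦ χ y * KA z y` is `C^1` with compact support, its `dbar1` is `dbar1 χ * KA z` (`KA z` is holomorphic near
`tsupport χ`, so `fderiv ℝ` is complex linear: `dbar1 (KA z) = 0`; off `tsupport χ` both sides are `0`), so `pompeiu` (H71/Top/Pompeiu) for `y ↦ χ (y + w) * KA z (y + w)` gives `∫ y, dbar1 χ y * KA z y / (y - w) = -π χ w * KA z w = -π KA z w`: `∑ H_j = KA z` near `c`.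
-/

set_option autoImplicit false

open Filter Topology Polynomial OnePoint Metric Set MeasureTheory

namespace Pool.Agent.H31.PP

open Pool.Agent.H44.Fatou Pool.Agent.H32.BT Pool.Agent.H80.AJ Pool.Agent.H35.EX Pool.Agent.H61.TT
open Pool.Agent.H79.Eul Pool.Agent.H79.Par Pool.Agent.H47.NN Pool.Agent.H71.Top
open Pool.Agent.H1.PU (KA)

/-- the functional of the cut-off function, of order `k` -/
noncomputable def PhiF (χ : ℂ → ℂ) (c : ℂ) (k : ℕ) (K : Set ℂ) (F : ℂ → ℂ) : ℂ :=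
  iteratedDeriv k (fun w => -((Real.pi : ℂ)⁻¹) * ∫ y in K, dbar1 χ y * F y / (y - w)) c

variable {χ : ℂ → ℂ} {c x : ℂ} {k : ℕ} {K : Set ℂ} {r : ℝ}

private theorem fk_bd {g : ℂ → ℂ} {c w : ℂ} {r0 : ℝ} (h0 : ∀ y ∈ ball c (2 * r0), g y = 0)
    (hw : w ∈ ball c r0) (y : ℂ) : g y = 0 ∨ r0 ≤ ‖y - w‖ := by
  by_cases hy : y ∈ ball c (2 * r0)
  · exact Or.inl (h0 y hy)
  · right
    rw [mem_ball, dist_eq_norm] at hy hw
    rw [not_lt] at hy
    have e : y - c = (y - w) + (w - c) := by ring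
    rw [e] at hy
    have h1 := norm_add_le (y - w) (w - c)
    linarith

private theorem fk_le {g : ℂ → ℂ} {c w : ℂ} {r0 : ℝ} (hr0 : 0 < r0)
    (h0 : ∀ y ∈ ball c (2 * r0), g y = 0) (hw : w ∈ ball c r0) (y : ℂ) :
    ‖g y / (y - w)‖ ≤ ‖g y‖ / r0 := by
  rcases fk_bd h0 hw y with h | h
  · rw [h, zero_div, norm_zero, zero_div]
  · rw [norm_div]
    exact div_le_div_of_nonneg_left (norm_nonneg _) hr0 h

private theorem fk_meas {g : ℂ → ℂ} {μ : Measure ℂ} (hg : AEStronglyMeasurable g μ) (w : ℂ)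
    (n : ℕ) : AEStronglyMeasurable (fun y => g y / (y - w) ^ n) μ := by
  have e : (fun y => g y / (y - w) ^ n) = fun y => g y * ((y - w) ^ n)⁻¹ := by
    funext y
    rw [div_eq_mul_inv]
  rw [e]
  have h1 : Measurable fun y : ℂ => ((y - w) ^ n)⁻¹ := ((measurable_id.sub_const w).pow_const n).inv
  exact hg.mul h1.aestronglyMeasurable

private theorem fk_meas1 {g : ℂ → ℂ} {μ : Measure ℂ} (hg : AEStronglyMeasurable g μ) (w : ℂ) :
    AEStronglyMeasurable (fun y => g y / (y - w)) μ := by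
  have h1 := fk_meas hg w 1
  simpa only [pow_one] using h1

private theorem fk_int {g : ℂ → ℂ} {c w : ℂ} {r0 : ℝ} {K : Set ℂ} (hr0 : 0 < r0)
    (h0 : ∀ y ∈ ball c (2 * r0), g y = 0) (hg : IntegrableOn g K) (hw : w ∈ ball c r0) :
    IntegrableOn (fun y => g y / (y - w)) K :=
  Integrable.mono' (hg.norm.div_const r0) (fk_meas1 hg.1 w) (ae_of_all _ (fk_le hr0 h0 hw))

private theorem fk_norm {g : ℂ → ℂ} {c w : ℂ} {r0 : ℝ} {K : Set ℂ} (hr0 : 0 < r0)
    (h0 : ∀ y ∈ ball c (2 * r0), g y = 0) (hg : IntegrableOn g K) (hw : w ∈ ball c r0) :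
    ‖∫ y in K, g y / (y - w)‖ ≤ (∫ y in K, ‖g y‖) / r0 := by
  rw [← integral_div]
  exact norm_integral_le_of_norm_le (hg.norm.div_const r0) (ae_of_all _ (fk_le hr0 h0 hw))

private theorem fk_der {g : ℂ → ℂ} {c : ℂ} {r0 : ℝ} {K : Set ℂ} (hr0 : 0 < r0)
    (h0 : ∀ y ∈ ball c (2 * r0), g y = 0) (hg : IntegrableOn g K) :
    DifferentiableOn ℂ (fun w => ∫ y in K, g y / (y - w)) (ball c r0) := by
  intro w hw
  have h1 := hasDerivAt_integral_of_dominated_loc_of_deriv_le (μ := volume.restrict K)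
    (F := fun w y => g y / (y - w)) (F' := fun w y => g y / (y - w) ^ 2) (x₀ := w)
    (s := ball c r0) (bound := fun y => ‖g y‖ / r0 ^ 2) (isOpen_ball.mem_nhds hw)
    (Eventually.of_forall fun w => fk_meas1 hg.1 w) (fk_int hr0 h0 hg hw) (fk_meas hg.1 w 2)
    (ae_of_all _ fun y w hw => by
      rcases fk_bd h0 hw y with h | h
      · simp only [h, zero_div, norm_zero]
        exact le_refl _
      · rw [norm_div, norm_pow]
        exact div_le_div_of_nonneg_left (norm_nonneg _) (pow_pos hr0 2)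
          (pow_le_pow_left₀ hr0.le h 2))
    (hg.norm.div_const _)
    (ae_of_all _ fun y w hw => by
      rcases fk_bd h0 hw y with h | h
      · simp only [h, zero_div]
        exact hasDerivAt_const w 0
      · have hne : y - w ≠ 0 := norm_pos_iff.1 (lt_of_lt_of_le hr0 h)
        have h2 := (hasDerivAt_const w (g y)).div ((hasDerivAt_const w y).sub (hasDerivAt_id w)) hne
        have e : (0 * (y - w) - g y * (0 - 1)) / (y - w) ^ 2 = g y / (y - w) ^ 2 := by ring
        have h3 : HasDerivAt (fun w => g y / (y - w)) ((0 * (y - w) - g y * (0 - 1)) / (y - w) ^ 2) w :=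
          h2
        rwa [e] at h3)
  exact h1.2.differentiableAt.differentiableWithinAt

private theorem db_cont (hs : ContDiff ℝ 1 χ) : Continuous (dbar1 χ) := by
  have h1 : Continuous (fderiv ℝ χ) := hs.continuous_fderiv one_ne_zero
  unfold dbar1
  exact continuous_const.mul ((h1.clm_apply continuous_const).add
    (continuous_const.mul (h1.clm_apply continuous_const)))

private theorem db_of_fderiv {y : ℂ} (h : fderiv ℝ χ y = 0) : dbar1 χ y = 0 := by
  unfold dbar1
  rw [h]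
  simp

private theorem db_off {y : ℂ} (h : y ∉ tsupport χ) : dbar1 χ y = 0 := by
  apply db_of_fderiv
  rw [notMem_tsupport_iff_eventuallyEq] at h
  rw [h.fderiv_eq]
  exact fderiv_const_apply 0

private theorem db_cs (hcs : HasCompactSupport χ) : HasCompactSupport (dbar1 χ) :=
  HasCompactSupport.intro hcs.isCompact fun _ hy => db_off hy

private theorem db_integrable (hs : ContDiff ℝ 1 χ) (hcs : HasCompactSupport χ) :
    Integrable (dbar1 χ) := (db_cont hs).integrable_of_hasCompactSupport (db_cs hcs)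

private theorem db_near (h1 : ∀ᶠ y in 𝓝 c, χ y = 1) :
    ∃ r0 : ℝ, 0 < r0 ∧ ∀ y ∈ ball c (2 * r0), dbar1 χ y = 0 := by
  have h2 : ∀ᶠ y in 𝓝 c, dbar1 χ y = 0 := by
    filter_upwards [h1.eventually_nhds] with y hy
    apply db_of_fderiv
    have h3 : χ =ᶠ[𝓝 y] fun _ => 1 := hy
    rw [h3.fderiv_eq]
    exact fderiv_const_apply 1
  obtain ⟨ε, hε, h3⟩ := Metric.eventually_nhds_iff_ball.1 h2
  refine ⟨ε / 2, by linarith, fun y hy => h3 y ?_⟩
  rwa [mul_div_cancel₀ _ (two_ne_zero)] at hy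

private theorem fk_F (hs : ContDiff ℝ 1 χ) (hcs : HasCompactSupport χ) (hK : MeasurableSet K)
    (hKr : K ⊆ ball x r) {F : ℂ → ℂ} {M : ℝ} (hF : Pool.H50.ST.Bd x r M F) :
    IntegrableOn (fun y => dbar1 χ y * F y) K := by
  have h1 : AEStronglyMeasurable F (volume.restrict (ball x r)) :=
    hF.1.continuousOn.aestronglyMeasurable measurableSet_ball
  exact Integrable.mul_bdd (db_integrable hs hcs).integrableOn (h1.mono_set hKr)
    (ae_restrict_of_forall_mem hK fun y hy => hF.2 y (hKr hy))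

private theorem fk_zero {r0 : ℝ} (h0 : ∀ y ∈ ball c (2 * r0), dbar1 χ y = 0) (F : ℂ → ℂ) :
    ∀ y ∈ ball c (2 * r0), dbar1 χ y * F y = 0 := fun y hy => by rw [h0 y hy, zero_mul]

private theorem fk_an {r0 : ℝ} (hr0 : 0 < r0) {g : ℂ → ℂ} (h0 : ∀ y ∈ ball c (2 * r0), g y = 0)
    (hg : IntegrableOn g K) (n : ℕ) :
    ContDiffAt ℂ n (fun w => -((Real.pi : ℂ)⁻¹) * ∫ y in K, g y / (y - w)) c :=
  (((fk_der hr0 h0 hg).const_mul _).analyticAt (ball_mem_nhds c hr0)).contDiffAt

theorem phi_add (hs : ContDiff ℝ 1 χ) (hcs : HasCompactSupport χ) (h1 : ∀ᶠ y in 𝓝 c, χ y = 1)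
    (hK : MeasurableSet K) (hKr : K ⊆ ball x r) {F G : ℂ → ℂ} {M N : ℝ}
    (hF : Pool.H50.ST.Bd x r M F) (hG : Pool.H50.ST.Bd x r N G) :
    PhiF χ c k K (fun w => F w + G w) = PhiF χ c k K F + PhiF χ c k K G := by
  obtain ⟨r0, hr0, h0⟩ := db_near h1
  have hFi := fk_F hs hcs hK hKr hF
  have hGi := fk_F hs hcs hK hKr hG
  have h0F := fk_zero h0 F
  have h0G := fk_zero h0 G
  unfold PhiF
  rw [← iteratedDeriv_add (fk_an hr0 h0F hFi k) (fk_an hr0 h0G hGi k)]
  apply Filter.EventuallyEq.iteratedDeriv_eq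
  filter_upwards [ball_mem_nhds c hr0] with w hw
  rw [Pi.add_apply, ← mul_add, ← integral_add (fk_int hr0 h0F hFi hw) (fk_int hr0 h0G hGi hw)]
  congr 2
  funext y
  ring

theorem phi_smul (hs : ContDiff ℝ 1 χ) (hcs : HasCompactSupport χ) (h1 : ∀ᶠ y in 𝓝 c, χ y = 1)
    (hK : MeasurableSet K) (hKr : K ⊆ ball x r) (z : ℂ) {F : ℂ → ℂ} {M : ℝ}
    (hF : Pool.H50.ST.Bd x r M F) :
    PhiF χ c k K (fun w => z * F w) = z * PhiF χ c k K F := by
  unfold PhiF
  rw [← iteratedDeriv_const_mul_field]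
  congr 1
  funext w
  have e : (fun y => dbar1 χ y * (z * F y) / (y - w)) =
      fun y => z * (dbar1 χ y * F y / (y - w)) := by
    funext y
    ring
  rw [e, integral_const_mul]
  ring

theorem phi_bd (hs : ContDiff ℝ 1 χ) (hcs : HasCompactSupport χ) (h1 : ∀ᶠ y in 𝓝 c, χ y = 1)
    (hK : MeasurableSet K) (hKr : K ⊆ ball x r) :
    ∃ C : ℝ, 0 ≤ C ∧ ∀ (F : ℂ → ℂ) (M : ℝ), 0 ≤ M → Pool.H50.ST.Bd x r M F →
      ‖PhiF χ c k K F‖ ≤ C * M := by
  obtain ⟨r0, hr0, h0⟩ := db_near h1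
  have hI0 : 0 ≤ ∫ y in K, ‖dbar1 χ y‖ := integral_nonneg fun _ => norm_nonneg _
  have hpi : (0 : ℝ) < Real.pi := Real.pi_pos
  have hpn : ‖-((Real.pi : ℂ)⁻¹)‖ = Real.pi⁻¹ := by
    rw [norm_neg, norm_inv, Complex.norm_real, Real.norm_eq_abs, abs_of_pos hpi]
  refine ⟨k.factorial * (Real.pi⁻¹ * ((∫ y in K, ‖dbar1 χ y‖) / r0)) / (r0 / 2) ^ k,
    by positivity, fun F M hM hF => ?_⟩
  have hFi := fk_F hs hcs hK hKr hF
  have h0F := fk_zero h0 F
  have hd : DifferentiableOn ℂ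
      (fun w => -((Real.pi : ℂ)⁻¹) * ∫ y in K, dbar1 χ y * F y / (y - w)) (ball c r0) :=
    (fk_der hr0 h0F hFi).const_mul _
  have hsub : closedBall c (r0 / 2) ⊆ ball c r0 := closedBall_subset_ball (by linarith)
  have h2 := Complex.norm_iteratedDeriv_le_of_forall_mem_sphere_norm_le (c := c) (R := r0 / 2)
    (C := Real.pi⁻¹ * ((∫ y in K, ‖dbar1 χ y‖) / r0) * M) k (by linarith)
    (hd.diffContOnCl_ball hsub) (fun w hw => by
      rw [norm_mul, hpn, mul_assoc]
      refine mul_le_mul_of_nonneg_left ?_ (inv_nonneg.2 hpi.le)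
      refine (fk_norm hr0 h0F hFi (hsub (sphere_subset_closedBall hw))).trans ?_
      rw [div_mul_eq_mul_div]
      refine div_le_div_of_nonneg_right ?_ hr0.le
      rw [← integral_mul_const]
      refine setIntegral_mono_on hFi.norm
        ((db_integrable hs hcs).integrableOn.norm.mul_const M) hK fun y hy => ?_
      rw [norm_mul]
      exact mul_le_mul_of_nonneg_left (hF.2 y (hKr hy)) (norm_nonneg _))
  refine h2.trans (le_of_eq ?_)
  ring

theorem phi_congr (hK : MeasurableSet K) (hKr : K ⊆ ball x r) {F G : ℂ → ℂ}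
    (h : ∀ w ∈ ball x r, F w = G w) : PhiF χ c k K F = PhiF χ c k K G := by
  unfold PhiF
  congr 1
  funext w
  congr 1
  refine setIntegral_congr_fun hK fun y hy => ?_
  rw [h y (hKr hy)]

private theorem ka_an {z y : ℂ} (h0 : y ≠ 0) (h1 : y ≠ 1) (hz : y ≠ z) :
    DifferentiableAt ℂ (KA z) y ∧ ContDiffAt ℝ 1 (KA z) y := by
  have hne : y * (y - 1) * (y - z) ≠ 0 :=
    mul_ne_zero (mul_ne_zero h0 (sub_ne_zero.2 h1)) (sub_ne_zero.2 hz)
  constructor
  · unfold KA
    exact (differentiableAt_const _).div ((differentiableAt_id.mul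
      (differentiableAt_id.sub_const 1)).mul (differentiableAt_id.sub_const z)) hne
  · have h2 : ContDiffAt ℂ 1 (KA z) y := by
      unfold KA
      exact contDiffAt_const.div ((contDiffAt_id.mul (contDiffAt_id.sub contDiffAt_const)).mul
        (contDiffAt_id.sub contDiffAt_const)) hne
    exact h2.restrict_scalars ℝ

private theorem db_hol {f : ℂ → ℂ} {y : ℂ} (h : DifferentiableAt ℂ f y) : dbar1 f y = 0 := by
  have h1 := h.hasDerivAt.hasFDerivAt.restrictScalars ℝ
  unfold dbar1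
  rw [h1.fderiv]
  simp only [ContinuousLinearMap.coe_restrictScalars', ContinuousLinearMap.toSpanSingleton_apply,
    smul_eq_mul]
  ring_nf
  rw [Complex.I_sq]
  ring

private theorem db_mul {f g : ℂ → ℂ} {y : ℂ} (hf : DifferentiableAt ℝ f y)
    (hg : DifferentiableAt ℝ g y) :
    dbar1 (fun w => f w * g w) y = dbar1 f y * g y + f y * dbar1 g y := by
  have h1 := (hf.hasFDerivAt.mul hg.hasFDerivAt).fderiv
  have h2 : fderiv ℝ (fun w => f w * g w) y = f y • fderiv ℝ g y + g y • fderiv ℝ f y := h1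
  unfold dbar1
  rw [h2]
  simp only [add_apply, smul_apply, smul_eq_mul]
  ring

theorem phi_tot (hs : ContDiff ℝ 1 χ) (hcs : HasCompactSupport χ) (h1 : ∀ᶠ y in 𝓝 c, χ y = 1)
    {n : ℕ} {L : Fin n → Set ℂ} (hL : ∀ j, MeasurableSet (L j))
    (hd : Pairwise (Function.onFun Disjoint L)) (hcov : tsupport (dbar1 χ) ⊆ ⋃ j, L j) {z : ℂ}
    (h0 : (0 : ℂ) ∉ tsupport χ) (h1' : (1 : ℂ) ∉ tsupport χ) (hz : z ∉ tsupport χ) :
    ∑ j, PhiF χ c k (L j) (KA z) = iteratedDeriv k (KA z) c := by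
  -- the function `χ * KA z`
  obtain ⟨v, hv⟩ : ∃ v : ℂ → ℂ, v = fun w => χ w * KA z w := ⟨_, rfl⟩
  have hne : ∀ y ∈ tsupport χ, y ≠ 0 ∧ y ≠ 1 ∧ y ≠ z := fun y hy =>
    ⟨fun h => h0 (h ▸ hy), fun h => h1' (h ▸ hy), fun h => hz (h ▸ hy)⟩
  have hv0 : ∀ y ∉ tsupport χ, v =ᶠ[𝓝 y] 0 := by
    intro y hy
    filter_upwards [notMem_tsupport_iff_eventuallyEq.1 hy] with w hw
    rw [hv]
    change χ w * KA z w = 0
    have hw' : χ w = 0 := hw
    rw [hw', zero_mul]
  have hvs : ContDiff ℝ 1 v := by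
    rw [contDiff_iff_contDiffAt]
    intro y
    by_cases hy : y ∈ tsupport χ
    · obtain ⟨a1, a2, a3⟩ := hne y hy
      rw [hv]
      exact hs.contDiffAt.mul (ka_an a1 a2 a3).2
    · exact (contDiffAt_const (c := (0 : ℂ))).congr_of_eventuallyEq (hv0 y hy)
  have hvc : HasCompactSupport v := HasCompactSupport.intro hcs.isCompact fun y hy =>
    (hv0 y hy).self_of_nhds
  have hdv : ∀ y, dbar1 v y = dbar1 χ y * KA z y := by
    intro y
    by_cases hy : y ∈ tsupport χ
    · obtain ⟨a1, a2, a3⟩ := hne y hy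
      obtain ⟨b1, b2⟩ := ka_an a1 a2 a3
      rw [hv, db_mul (hs.differentiable one_ne_zero y) (b2.differentiableAt one_ne_zero), db_hol b1,
        mul_zero, add_zero]
    · rw [db_off hy, zero_mul]
      apply db_of_fderiv
      rw [(hv0 y hy).fderiv_eq]
      exact fderiv_const_apply 0
  have hgi : Integrable (fun y => dbar1 χ y * KA z y) := by
    have h2 := db_integrable hvs hvc
    have e : dbar1 v = fun y => dbar1 χ y * KA z y := funext hdv
    rwa [e] at h2
  -- the formula of Cauchy and Pompeiu at `w`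
  have hcp : ∀ w : ℂ, ∫ y, dbar1 χ y * KA z y / (y - w) = -(Real.pi : ℂ) * v w := by
    intro w
    have h2 := pompeiu (fun u => v (u + w)) (hvs.comp (contDiff_id.add contDiff_const))
      (hvc.comp_homeomorph (Homeomorph.addRight w))
    have h3 : ∀ u : ℂ, dbar1 (fun u => v (u + w)) u / u =
        (fun y => dbar1 χ y * KA z y / (y - w)) (u + w) := by
      intro u
      have h4 : dbar1 (fun u => v (u + w)) u = dbar1 v (u + w) := by
        unfold dbar1
        rw [fderiv_comp_add_right]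
      rw [h4, hdv]
      change _ = dbar1 χ (u + w) * KA z (u + w) / (u + w - w)
      rw [add_sub_cancel_right]
    rw [integral_congr_ae (ae_of_all _ h3),
      integral_add_right_eq_self (fun y => dbar1 χ y * KA z y / (y - w)) w] at h2
    rw [h2]
    change -(Real.pi : ℂ) * v (0 + w) = _
    rw [zero_add]
  obtain ⟨r0, hr0, hr⟩ := db_near h1
  have hz0 := fk_zero hr (KA z)
  unfold PhiF
  rw [← iteratedDeriv_fun_sum (fun j _ => fk_an hr0 hz0 hgi.integrableOn k)]
  apply Filter.EventuallyEq.iteratedDeriv_eq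
  filter_upwards [ball_mem_nhds c hr0, h1] with w hw hw1
  rw [← Finset.mul_sum, ← integral_iUnion_fintype hL hd
    (fun j => fk_int hr0 hz0 hgi.integrableOn hw),
    setIntegral_eq_integral_of_forall_compl_eq_zero, hcp w, hv]
  · change -(Real.pi : ℂ)⁻¹ * (-(Real.pi : ℂ) * (χ w * KA z w)) = KA z w
    rw [hw1, one_mul]
    have hpi : (Real.pi : ℂ) ≠ 0 := by exact_mod_cast Real.pi_ne_zero
    field_simp
  · intro y hy
    have h2 : dbar1 χ y = 0 := by
      by_contra h3
      exact hy (hcov (subset_tsupport _ h3))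
    rw [h2, zero_mul, zero_div]

end Pool.Agent.H31.PP
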