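import Pool.Agent.H31.PP.Defs
import Pool.Agent.H42.PP.Cty
import Pool.Agent.H1.RO.Chg

/-!
# [H31 PP Mjw] bounded overlap gives majorants

`ov_maj` is `ee_maj` (H1/PU/Ent) with `A`, disjoint images, replaced by `W`, overlap `N`. PROOF. Copy of `ee_maj`: `C = KK^2 * N / (volume W).toReal`, `J p = ∫⁻ y in br p '' W, ofReal (G y)`;
`∑' p, J p = ∑' p, ∫⁻ y, (br p '' W).indicator (ofReal ∘ G) y = ∫⁻ y, ∑' p, ... ≤ ∫⁻ y, N * ofReal (G y)` (`lintegral_tsum`; for fixed `y` at most `N` indices `p` have `y ∈ br p '' W` by `ho.ovl`, so the sum over `p` is at most `N * ofReal (G y)`: `ENNReal.tsum_eq_iSup_sum`). The sets `br p '' W` are measurable: `MeasurableSet.image_of_continuousOn_injOn`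
(`br_diff`, `br_inj`). `F` is countable (`ix_cnt` of H1/PU/RetB for `PS0`: copy `lev_cnt`, `ix_cnt` as private lemmas if they are not in H42/PP). The estimate on the disc is the same (`Pool.Agent.H1.RO.chg`, `koe_der`). `mj_ovl`: `ee`: `ov_maj` (`W ⊆ ball x s ⊆ ball x (6 s)`); `r1`: `ov_maj` with `G = B0.indicator 1`, `M = 1` (`B0` open, of finite measure).
-/

set_option autoImplicit false

open Filter Topology Polynomial OnePoint Metric Set MeasureTheory

namespace Pool.Agent.H31.PP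

open Pool.Agent.H44.Fatou Pool.Agent.H32.BT Pool.Agent.H80.AJ Pool.Agent.H35.EX Pool.Agent.H61.TT
open Pool.Agent.H79.Eul Pool.Agent.H79.Par Pool.Agent.H47.NN Pool.Agent.H71.Top
open Pool.Agent.H42.PP
open Pool.Agent.H1.PU (rho IX br Nice Av EE RR R1 g1 LAM KA EA Crt JP)

variable {d : ℕ} {P Q : Polynomial ℂ} {PA : Set (OnePoint ℂ)} {x : ℂ} {s : ℝ} {A B0 : Set ℂ}

private theorem lev_cnt (h : PS0 d P Q PA x s) (n : ℕ) :
    {y : ℂ | (rat P Q)^[n] (y : OnePoint ℂ) = (x : OnePoint ℂ)}.Countable := by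
  induction n with
  | zero =>
    have h1 : {y : ℂ | (rat P Q)^[0] (y : OnePoint ℂ) = (x : OnePoint ℂ)} ⊆ {x} := by
      intro y hy
      exact OnePoint.coe_injective hy
    exact (countable_singleton x).mono h1
  | succ n ih =>
    have h1 : {y : ℂ | (rat P Q)^[n + 1] (y : OnePoint ℂ) = (x : OnePoint ℂ)} ⊆
        ⋃ z ∈ {y : ℂ | (rat P Q)^[n] (y : OnePoint ℂ) = (x : OnePoint ℂ)}, (fs P Q z : Set ℂ) := by
      intro y hy
      have hy' : (rat P Q)^[n] (rat P Q (y : OnePoint ℂ)) = (x : OnePoint ℂ) := by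
        rw [← Function.iterate_succ_apply]
        exact hy
      obtain ⟨z, hz⟩ := pre_fin h (c_mem h) hy'
      rw [hz] at hy'
      have hQ : Q.eval y ≠ 0 := by
        intro h0
        rw [rat_coe] at hz
        unfold pt at hz
        rw [if_pos h0] at hz
        exact OnePoint.infty_ne_coe _ hz
      rw [rat_coe_of_ne hQ] at hz
      simp only [mem_iUnion]
      refine ⟨z, hy', ?_⟩
      rw [Finset.mem_coe, mem_fs h.rd]
      exact ⟨hQ, OnePoint.coe_injective hz⟩
    exact (ih.biUnion fun z _ => (fs P Q z).finite_toSet.countable).mono h1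

private theorem ixc (h : PS0 d P Q PA x s) : (IX P Q x).Countable := by
  have h1 : IX P Q x ⊆ ⋃ n : ℕ, (Prod.mk n) '' {y : ℂ | (rat P Q)^[n] (y : OnePoint ℂ) = (x : OnePoint ℂ)} := by
    rintro ⟨n, y⟩ hp
    exact mem_iUnion.2 ⟨n, y, hp, rfl⟩
  exact (countable_iUnion fun n => (lev_cnt h n).image _).mono h1

theorem ov_maj (h : PS0 d P Q PA x s) {F : Set (ℕ × ℂ)} (hF : F ⊆ IX P Q x) {W : Set ℂ} {N : ℕ}
    (ho : Ovl P Q x s F W N) :
    ∃ C : ℝ, 0 ≤ C ∧ ∀ (G : ℂ → ℝ) (M : ℝ), Integrable G → (∀ y, 0 ≤ G y) → 0 ≤ M →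
      (∀ p ∈ F, ∀ y ∈ ball x (6 * s), ∀ z ∈ W, G (br P Q x s p y) ≤ M * G (br P Q x s p z)) →
      ∃ u : F → ℝ, Summable u ∧ ∑' p, u p ≤ C * M * ∫ y, G y ∧
        ∀ (p : F), ∀ y ∈ ball x (6 * s),
          ‖deriv (br P Q x s p.1) y‖ ^ 2 * G (br P Q x s p.1 y) ≤ u p := by
  classical
  have h0 := h.s0
  have hK := KK_pos
  have hcnt : Countable F := ((ixc h).mono hF).to_subtype
  have hW1 : W ⊆ ball x s := ho.sub
  have hAb : W ⊆ ball x (8 * s) := hW1.trans (ball_subset_ball (by linarith))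
  have h68 : ball x (6 * s) ⊆ ball x (8 * s) := ball_subset_ball (by linarith)
  have hAm : MeasurableSet W := ho.meas
  have h8 : ball x (8 * s) ⊆ ball x (rho s) :=
    ball_subset_ball (by have := rho_ge h0; linarith)
  have hvt : volume W ≠ ⊤ := ((measure_mono hW1).trans_lt measure_ball_lt_top).ne
  have hv0 : volume W ≠ 0 := ho.pos
  have hV : 0 < (volume W).toReal := ENNReal.toReal_pos hv0 hvt
  refine ⟨KK ^ 2 / (volume W).toReal * N, by positivity, ?_⟩
  intro G M hG hG0 hM hcmp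
  set J : F → ENNReal := fun p => ∫⁻ y in br P Q x s p.1 '' W, ENNReal.ofReal (G y)
    with hJ
  have hJm : ∀ p : F, MeasurableSet (br P Q x s p.1 '' W) := fun p =>
    hAm.image_of_continuousOn_injOn
      (((br_diff h (hF p.2)).continuousOn).mono (hAb.trans h8))
      ((br_inj h (hF p.2)).mono (hAb.trans h8))
  have hJs : ∑' p, J p ≤ N * ∫⁻ y, ENNReal.ofReal (G y) := by
    rw [ENNReal.tsum_eq_iSup_sum]
    refine iSup_le fun L => ?_
    have e1 : ∑ p ∈ L, J p = ∫⁻ y, ∑ p ∈ L,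
        (br P Q x s p.1 '' W).indicator (fun y => ENNReal.ofReal (G y)) y := by
      rw [lintegral_finsetSum']
      · refine Finset.sum_congr rfl fun p _ => ?_
        rw [lintegral_indicator (hJm p)]
      · intro p _
        exact (hG.aemeasurable.ennreal_ofReal).indicator (hJm p)
    rw [e1, ← lintegral_const_mul' _ _ (ENNReal.natCast_ne_top _)]
    refine lintegral_mono fun y => ?_
    have e2 : ∑ p ∈ L, (br P Q x s p.1 '' W).indicator (fun y => ENNReal.ofReal (G y)) y =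
        ((L.filter fun p => y ∈ br P Q x s p.1 '' W).card : ENNReal) * ENNReal.ofReal (G y) := by
      rw [← nsmul_eq_mul, ← Finset.sum_const, Finset.sum_filter]
      refine Finset.sum_congr rfl fun p _ => ?_
      rw [indicator_apply]
    show ∑ p ∈ L, (br P Q x s p.1 '' W).indicator (fun y => ENNReal.ofReal (G y)) y ≤
      (N : ENNReal) * ENNReal.ofReal (G y)
    rw [e2]
    refine mul_le_mul_left ?_ _
    have e3 := ho.ovl y ((L.filter fun p => y ∈ br P Q x s p.1 '' W).image Subtype.val) (by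
      intro p hp
      rw [Finset.mem_image] at hp
      obtain ⟨q, hq, rfl⟩ := hp
      rw [Finset.mem_filter] at hq
      exact ⟨q.2, hq.2⟩)
    rw [Finset.card_image_of_injective _ Subtype.val_injective] at e3
    exact_mod_cast e3
  have hFt : ∫⁻ y, ENNReal.ofReal (G y) ≠ ⊤ := by
    rw [← ofReal_integral_eq_lintegral_ofReal hG (ae_of_all _ hG0)]
    exact ENNReal.ofReal_ne_top
  have hNF : (N : ENNReal) * ∫⁻ y, ENNReal.ofReal (G y) ≠ ⊤ :=
    ENNReal.mul_ne_top (ENNReal.natCast_ne_top _) hFt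
  have hJt : ∑' p, J p ≠ ⊤ := ne_top_of_le_ne_top hNF hJs
  have hJp : ∀ p, J p ≠ ⊤ := ENNReal.ne_top_of_tsum_ne_top hJt
  have hsum : Summable fun p => (J p).toReal := ENNReal.summable_toReal hJt
  refine ⟨fun p => KK ^ 2 / (volume W).toReal * M * (J p).toReal, hsum.mul_left _, ?_, ?_⟩
  · rw [tsum_mul_left]
    have e3 : KK ^ 2 / (volume W).toReal * N * M * ∫ y, G y =
        KK ^ 2 / (volume W).toReal * M * (N * ∫ y, G y) := by ring
    rw [e3]
    refine mul_le_mul_of_nonneg_left ?_ (by positivity)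
    rw [← ENNReal.tsum_toReal_eq hJp, integral_eq_lintegral_of_nonneg_ae (ae_of_all _ hG0)
      hG.aestronglyMeasurable]
    have h9 := ENNReal.toReal_mono hNF hJs
    rw [ENNReal.toReal_mul, ENNReal.toReal_natCast] at h9
    exact h9
  · intro p w hw
    have hchg := Pool.Agent.H1.RO.chg isOpen_ball hAm hAb (G := br P Q x s p.1)
      ((br_diff h (hF p.2)).mono h8) ((br_inj h (hF p.2)).mono (hAb.trans h8))
      (fun y => ENNReal.ofReal (G y))
    set T : ℝ := ‖deriv (br P Q x s p.1) w‖ ^ 2 * G (br P Q x s p.1 w) with hT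
    have hT0 : 0 ≤ T := mul_nonneg (by positivity) (hG0 _)
    have hle : ENNReal.ofReal T * volume W ≤ ENNReal.ofReal (KK ^ 2 * M) * J p := by
      have e0 : J p = ∫⁻ y in W, ENNReal.ofReal (‖deriv (br P Q x s p.1) y‖ ^ 2) *
          ENNReal.ofReal (G (br P Q x s p.1 y)) := hchg
      rw [e0, ← lintegral_const_mul' _ _ ENNReal.ofReal_ne_top, ← setLIntegral_const]
      refine setLIntegral_mono' hAm fun z hz => ?_
      rw [← ENNReal.ofReal_mul (by positivity), ← ENNReal.ofReal_mul (by positivity)]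
      apply ENNReal.ofReal_le_ofReal
      have e1 := (koe_der h (hF p.2) (h68 hw) (hAb hz)).2
      have e2 := hcmp p.1 p.2 w hw z hz
      have e3 : ‖deriv (br P Q x s p.1) w‖ ^ 2 ≤ (KK * ‖deriv (br P Q x s p.1) z‖) ^ 2 := by
        gcongr
      calc T ≤ (KK * ‖deriv (br P Q x s p.1) z‖) ^ 2 * (M * G (br P Q x s p.1 z)) :=
            mul_le_mul e3 e2 (hG0 _) (by positivity)
        _ = KK ^ 2 * M * (‖deriv (br P Q x s p.1) z‖ ^ 2 * G (br P Q x s p.1 z)) := by ring
    have h5 := ENNReal.toReal_mono (ENNReal.mul_ne_top ENNReal.ofReal_ne_top (hJp p)) hle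
    rw [ENNReal.toReal_mul, ENNReal.toReal_mul, ENNReal.toReal_ofReal hT0,
      ENNReal.toReal_ofReal (by positivity)] at h5
    have h6 : KK ^ 2 / (volume W).toReal * M * (J p).toReal =
        KK ^ 2 * M * (J p).toReal / (volume W).toReal := by ring
    show T ≤ KK ^ 2 / (volume W).toReal * M * (J p).toReal
    rw [h6, le_div_iff₀ hV]
    exact h5

theorem mj_ovl (h : PS0 d P Q PA x s) (hE : ∃ (W : Set ℂ) (N : ℕ), Ovl P Q x s (EE P Q x A) W N)
    (hR : ∃ (W : Set ℂ) (N : ℕ), Ovl P Q x s (R1 P Q x A) W N) (hB : IsOpen B0) (hBf : volume B0 ≠ ⊤)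
    (hland : ∀ p ∈ R1 P Q x A, ∀ u ∈ ball x (6 * s), br P Q x s p u ∈ B0) : Mj P Q x s A := by
  classical
  have h0 := h.s0
  have h16 : ball x s ⊆ ball x (6 * s) := ball_subset_ball (by linarith)
  obtain ⟨W, N, hW⟩ := hE
  obtain ⟨W', N', hW'⟩ := hR
  refine ⟨?_, ?_⟩
  · obtain ⟨C, hC, hmaj⟩ := ov_maj h (F := EE P Q x A) (fun p hp => hp.1) hW
    refine ⟨C, hC, fun G M hG hG0 hM hcmp => ?_⟩
    exact hmaj G M hG hG0 hM fun p hp y hy z hz => hcmp p hp y hy z (h16 (hW.sub hz))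
  · obtain ⟨C, hC, hmaj⟩ := ov_maj h (F := R1 P Q x A) (fun p hp => hp.1) hW'
    have hint : Integrable (indicator B0 (fun _ : ℂ => (1 : ℝ))) := by
      rw [integrable_indicator_iff hB.measurableSet]
      exact integrableOn_const hBf
    obtain ⟨u, hu1, -, hu3⟩ := hmaj (indicator B0 (fun _ : ℂ => (1 : ℝ))) 1 hint
      (fun y => indicator_nonneg (fun _ _ => zero_le_one) y) zero_le_one
      (fun p hp y hy z hz => by
        rw [indicator_of_mem (hland p hp y hy), indicator_of_mem (hland p hp z (h16 (hW'.sub hz))),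
          one_mul])
    refine ⟨u, hu1, fun p w hw => ?_⟩
    have h1 := hu3 p w hw
    rw [indicator_of_mem (hland p.1 p.2 w hw), mul_one] at h1
    exact h1

end Pool.Agent.H31.PP
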