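import Pool.Agent.H31.PP.XiP
import Pool.Agent.H1.PU.Unb

/-!
# [H31 PP Mn] the contradiction

PROOF. `xi_pp`: `Ξ, η, κ`. `xi_surj` (H61/TT/Surj, `v0 := v`, `h.rd`): `w0 : E d` with `xi v w0 z = η z / Q z ^ 2`. `h.vm` for every `x ∈ b` with `w0, Ξ`: constants `C x`; `C = ∑ x ∈ b, |C x|` works for all of them. As in `unb` (H1/PU/Unb; `near_crit`, `open_at` can be cited): let `β = ‖κ‖ > 0`; `r1`: `‖η y / Q y ^ 2 - η c / Q c ^ 2‖ < β / 4` for `‖y - c‖ < r1`;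
`t1`: `‖Ξ a - Ξ v‖ ≤ β / 4` for `a ∈ SS T`, `‖a - v‖ < t1` (`v = gg c`). `near_crit` with `ε' = min 1 (β / (2 (M + 1)))`, `M = C (1 + (‖c‖ + 1)^2)`: `r2 ≤ ε'`: for `y ∈ ball c r2`, `y ≠ c`: `Q y ≠ 0`, `dg y ≠ 0`, `‖dg y‖ < ε'`. `open_at` with `min r1 r2`: `t2`. `h.vee` with `min t1 t2`: `k, z`. `y ∈ ball c (min r1 r2)` with `gg y = z 0`.
`y ≠ c`: otherwise `z 0 = gg c ∈ PA`, so `z k ∈ PA` (`iter_mem`, `h.sys.inv`), against `h.bPA`.
New orbit `z' 0 = y`, `z' (i+1) = z i`, lands at `z k ∈ b` at time `k + 1`. `h.vm`: `u` with `u (k+1) = Ξ (z k)`, the recursion for `i < k + 1`, `‖u 0‖ ≤ C (1 + ‖y‖^2) ≤ M`. Downward induction on `i ≤ k`: `u (i+1) = Ξ (z i)` (both satisfy the recursion, `Ξ (z (i+1)) = dg (z i) Ξ (z i) + xi v w0 (z i)` as `z i ∈ SS T`, `dg (z i) ≠ 0`). So `u 1 = Ξ (z 0)` and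
`dg y * u 0 = Ξ (z 0) - η y / Q y ^ 2`, which has norm `≥ β - β/4 - β/4 = β/2`, while `‖dg y * u 0‖ < ε' M ≤ β / 2`: contradiction.
-/

set_option autoImplicit false

open Filter Topology Polynomial OnePoint Metric Set MeasureTheory

namespace Pool.Agent.H31.PP

open Pool.Agent.H44.Fatou Pool.Agent.H32.BT Pool.Agent.H80.AJ Pool.Agent.H35.EX Pool.Agent.H61.TT
open Pool.Agent.H79.Eul Pool.Agent.H79.Par Pool.Agent.H47.NN Pool.Agent.H71.Top
open Pool.Agent.H42.PP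
open Pool.Agent.H1.PU (rho IX br Nice Av EE RR R1 g1 LAM KA EA Crt JP)

variable {d : ℕ} {v : E d} {PA : Set (OnePoint ℂ)} {c : ℂ} {A B0 T : Set ℂ} {U : ℂ → ℂ → ℂ} {χ : ℂ → ℂ}
  {b : Finset ℂ}

private theorem mn_q {P Q : Polynomial ℂ} {c : ℂ} (hc : Crt P Q c) : Q.eval c ≠ 0 := by
  intro h0
  refine hc.ninf 1 0 ?_
  rw [Function.iterate_one, Function.iterate_zero, id, Pool.Agent.H44.Fatou.rat_coe]
  unfold Pool.Agent.H44.Fatou.pt
  rw [if_pos h0]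

/-- one constant for all markers -/
private theorem vm_all {v : E d} {S : Set ℂ} {b : Finset ℂ} (h : ∀ x ∈ b, VM v S x) (w : E d)
    (Ξ : ℂ → ℂ) (hX : ∀ z ∈ S, (pol v.2).eval z ≠ 0 →
      Ξ (gg (pol v.1) (pol v.2) z) =
        Pool.Agent.H61.TT.dg (pol v.1) (pol v.2) z * Ξ z + xi v w z) :
    ∃ C : ℝ, 0 ≤ C ∧ ∀ (k : ℕ) (z : ℕ → ℂ),
      (∀ i < k, (pol v.2).eval (z i) ≠ 0 ∧ z (i + 1) = gg (pol v.1) (pol v.2) (z i)) → z k ∈ b →
      ∃ u : ℕ → ℂ, u k = Ξ (z k) ∧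
        (∀ i < k, u (i + 1) = Pool.Agent.H61.TT.dg (pol v.1) (pol v.2) (z i) * u i + xi v w (z i)) ∧
        ‖u 0‖ ≤ C * (1 + ‖z 0‖ ^ 2) := by
  have h1 : ∀ x ∈ b, ∃ C : ℝ, ∀ (k : ℕ) (z : ℕ → ℂ),
      (∀ i < k, (pol v.2).eval (z i) ≠ 0 ∧ z (i + 1) = gg (pol v.1) (pol v.2) (z i)) → z k = x →
      ∃ u : ℕ → ℂ, u k = Ξ x ∧
        (∀ i < k, u (i + 1) = Pool.Agent.H61.TT.dg (pol v.1) (pol v.2) (z i) * u i + xi v w (z i)) ∧
        ‖u 0‖ ≤ C * (1 + ‖z 0‖ ^ 2) := fun x hx => h x hx w Ξ hX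
  choose! C0 hC0 using h1
  refine ⟨∑ x ∈ b, |C0 x|, Finset.sum_nonneg fun x _ => abs_nonneg _, fun k z hz hk => ?_⟩
  obtain ⟨u, hu1, hu2, hu3⟩ := hC0 (z k) hk k z hz rfl
  refine ⟨u, hu1, hu2, hu3.trans ?_⟩
  have h2 : C0 (z k) ≤ ∑ x ∈ b, |C0 x| :=
    (le_abs_self _).trans (Finset.single_le_sum (f := fun x => |C0 x|)
      (fun x _ => abs_nonneg _) hk)
  exact mul_le_mul_of_nonneg_right h2 (by positivity)

theorem pp_false (h : PD3 v PA c A B0 T U χ b) : False := by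
  obtain ⟨Ξ, η, κ, hκ, hη, hX, hv, hcont⟩ := xi_pp h
  obtain ⟨w0, hw0⟩ := xi_surj h.rd hη
  have hcq := mn_q h.crt
  have hW0 := ww_ne h.rd
  have hX' : ∀ z ∈ SS (pol v.1) (pol v.2) T, (pol v.2).eval z ≠ 0 →
      Ξ (gg (pol v.1) (pol v.2) z) =
        Pool.Agent.H61.TT.dg (pol v.1) (pol v.2) z * Ξ z + xi v w0 z := by
    intro z hz hzq
    rw [hw0]
    exact hX z hz hzq
  obtain ⟨C, hC0, hC⟩ := vm_all h.vm w0 Ξ hX'
  obtain ⟨β, hβ⟩ : ∃ β, β = ‖κ‖ := ⟨_, rfl⟩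
  have hβ0 : 0 < β := by
    rw [hβ]
    exact norm_pos_iff.2 hκ
  obtain ⟨M, hM⟩ : ∃ M : ℝ, M = C * (1 + (‖c‖ + 1) ^ 2) := ⟨_, rfl⟩
  have hM0 : 0 ≤ M := by
    rw [hM]
    positivity
  have h1 : ContinuousAt (fun y => η.eval y / (pol v.2).eval y ^ 2) c :=
    η.continuous.continuousAt.div ((pol v.2).continuous.continuousAt.pow 2) (pow_ne_zero 2 hcq)
  obtain ⟨r1, hr1, h2⟩ := Metric.continuousAt_iff.1 h1 (β / 4) (by positivity)
  obtain ⟨t1, ht1, h3⟩ := hcont (β / 4) (by positivity)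
  obtain ⟨r2, hr2, hr2', h4⟩ := Pool.Agent.H1.PU.near_crit h.crt.w hcq hW0
    (lt_min one_pos (show 0 < β / (2 * (M + 1)) by positivity))
  obtain ⟨t2, ht2, h5⟩ := Pool.Agent.H1.PU.open_at hcq hW0 (lt_min hr1 hr2)
  obtain ⟨k, z, hz, hzb, hzS, hzv⟩ := h.vee (min t1 t2) (lt_min ht1 ht2)
  obtain ⟨y, hy, hyz⟩ := h5 (z 0) (by
    rw [mem_ball, dist_eq_norm]
    exact lt_of_lt_of_le hzv (min_le_right _ _))
  have hyc : y ≠ c := by
    intro h6
    rw [h6] at hyz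
    have h7 : ∀ i ≤ k, ((z i : ℂ) : OnePoint ℂ) ∈ PA := by
      intro i
      induction i with
      | zero =>
        intro _
        rw [← hyz]
        exact h.vPA
      | succ i ih =>
        intro hi
        have h8 := h.sys.inv _ (ih (by omega))
        obtain ⟨h9, h10, -⟩ := hz i (by omega)
        rw [Pool.Agent.H44.Fatou.rat_coe_of_ne h9] at h8
        rw [h10]
        exact h8
    exact h.bPA _ hzb (h7 k le_rfl)
  have hyr2 : y ∈ ball c r2 := ball_subset_ball (min_le_right _ _) hy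
  obtain ⟨h6, h7, h8⟩ := h4 y hyr2 hyc
  -- the new orbit
  obtain ⟨z', e0, e1⟩ : ∃ z' : ℕ → ℂ, z' 0 = y ∧ ∀ i, z' (i + 1) = z i :=
    ⟨fun i => if i = 0 then y else z (i - 1), by simp, fun i => by simp⟩
  obtain ⟨u, hu1, hu2, hu3⟩ := hC (k + 1) z' (by
    intro i hi
    cases i with
    | zero =>
      rw [e0, e1]
      exact ⟨h6, hyz.symm⟩
    | succ i =>
      rw [e1, e1]
      exact ⟨(hz i (by omega)).1, (hz i (by omega)).2.1⟩) (by
    rw [e1]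
    exact hzb)
  rw [e1] at hu1
  have hu0 : ‖u 0‖ ≤ M := by
    refine hu3.trans ?_
    rw [hM, e0]
    refine mul_le_mul_of_nonneg_left ?_ hC0
    have h9 : ‖y‖ ≤ ‖c‖ + 1 := by
      have h10 : ‖y - c‖ < 1 := by
        rw [← dist_eq_norm]
        exact lt_of_lt_of_le (mem_ball.1 hyr2) (hr2'.trans (min_le_left _ _))
      have h11 := norm_sub_norm_le y c
      linarith
    have h10 := pow_le_pow_left₀ (norm_nonneg y) h9 2
    linarith
  -- `u` agrees with `Ξ` on the old orbit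
  have hdown : ∀ m, m ≤ k → u (k - m + 1) = Ξ (z (k - m)) := by
    intro m
    induction m with
    | zero =>
      intro _
      rw [Nat.sub_zero]
      exact hu1
    | succ m ih =>
      intro hm
      have h9 := ih (by omega)
      obtain ⟨i, hi⟩ : ∃ i, i = k - (m + 1) := ⟨_, rfl⟩
      have h10 : k - m = i + 1 := by omega
      rw [← hi]
      rw [h10] at h9
      have h11 := hu2 (i + 1) (by omega)
      rw [e1, h9] at h11
      obtain ⟨h12, h13, h14⟩ := hz i (by omega)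
      have h15 := hX' (z i) (hzS i (by omega)) h12
      rw [← h13] at h15
      rw [h15] at h11
      exact (mul_left_cancel₀ h14 (add_right_cancel h11)).symm
  have h9 : u 1 = Ξ (z 0) := by
    have h10 := hdown k le_rfl
    rwa [Nat.sub_self] at h10
  have h10 := hu2 0 (Nat.succ_pos k)
  rw [e0, Nat.zero_add, h9, hw0] at h10
  -- the equation at `y`
  have h11 : ‖Ξ (z 0) - Ξ (gg (pol v.1) (pol v.2) c)‖ ≤ β / 4 :=
    h3 (z 0) (hzS 0 (Nat.zero_le _)) (lt_of_lt_of_le hzv (min_le_left _ _))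
  have h12 : ‖η.eval y / (pol v.2).eval y ^ 2 - η.eval c / (pol v.2).eval c ^ 2‖ < β / 4 := by
    have h13 := h2 (x := y) (lt_of_lt_of_le (mem_ball.1 hy) (min_le_left _ _))
    rwa [dist_eq_norm] at h13
  have h13 : Pool.Agent.H61.TT.dg (pol v.1) (pol v.2) y * u 0 =
      (Ξ (z 0) - Ξ (gg (pol v.1) (pol v.2) c)) -
      (η.eval y / (pol v.2).eval y ^ 2 - η.eval c / (pol v.2).eval c ^ 2) - κ := by
    rw [hv]
    linear_combination -h10
  have h14 : β / 2 < ‖Pool.Agent.H61.TT.dg (pol v.1) (pol v.2) y * u 0‖ := by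
    rw [h13]
    have h15 := norm_sub_norm_le κ
      ((Ξ (z 0) - Ξ (gg (pol v.1) (pol v.2) c)) -
        (η.eval y / (pol v.2).eval y ^ 2 - η.eval c / (pol v.2).eval c ^ 2))
    have h17 := norm_sub_rev κ
      ((Ξ (z 0) - Ξ (gg (pol v.1) (pol v.2) c)) -
        (η.eval y / (pol v.2).eval y ^ 2 - η.eval c / (pol v.2).eval c ^ 2))
    rw [← hβ, h17] at h15
    have h16 := norm_sub_le (Ξ (z 0) - Ξ (gg (pol v.1) (pol v.2) c))
      (η.eval y / (pol v.2).eval y ^ 2 - η.eval c / (pol v.2).eval c ^ 2)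
    linarith
  rw [norm_mul] at h14
  have h15 : ‖Pool.Agent.H61.TT.dg (pol v.1) (pol v.2) y‖ < β / (2 * (M + 1)) :=
    lt_of_lt_of_le h8 (min_le_right _ _)
  have h19 : ‖Pool.Agent.H61.TT.dg (pol v.1) (pol v.2) y‖ * ‖u 0‖ ≤ β / (2 * (M + 1)) * (M + 1) :=
    mul_le_mul h15.le (hu0.trans (by linarith)) (norm_nonneg _) (by positivity)
  have h20 : β / (2 * (M + 1)) * (M + 1) = β / 2 := by
    have : M + 1 ≠ 0 := by positivity
    field_simp
  linarith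

end Pool.Agent.H31.PP
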