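import Pool.Agent.H31.PP.Defs
import Pool.Agent.H42.PP.Cty
import Pool.Agent.H42.PP.Idn

/-!
# [H31 PP Sdm] the function `SD` on a disc: bound, continuity, identity

PROOF. Let `u` be the majorant of `hD.mj.r1`. `lop_b0`: for `F` holomorphic on `B0` and bounded there by `M` the terms `deriv (br p) y ^ 2 * F (br p y)` are holomorphic on `ball x (6 s)` (`hD.land`, `br_diff`) and bounded by `M * u p` (`Complex.differentiableOn_tsum_of_summable_norm`, as `lop_bdd`, H42/PP/Lin; `g1 P Q x s A p = br P Q x s p.1` by `rfl`). `sd_bd`: `ea_bd` (H42/PP/Ent; `z ∈ LAM P Q x s`: `ss_lam` for `z ∈ SS T`,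
`c_lam` for `z = c`) and `lop_b0` with `F = U z`. `sd_cont`: `ea_cont` (H42/PP/Cty) with `ε/2` and `lop_b0` with `F = U z - U v` (`hU.cont` with `ε / (2 (1 + ∑' u))`; `Lop` of a difference is the difference, both sums converge). `c_lam`: `f^n c ∈ PA` for `n ≥ 1` (`iter_mem`) and `ball x (8 s) ⊆ ball x (rho s)` is off `PA`; `n = 0`: `hD.nc`.
`sd_idn`: `Pool.Agent.H42.PP.idn` with `S' = {z ∈ insert c (SS T), Q z ≠ 0}` gives `N1` (`BK`: `hD.land`, `hU.kb`); for every `p ∈ R1 P Q x A` the point `σ_p = br p y ∈ B0` (`hD.land`) and `hU.idn` gives `N_p`: `dg z (U z σ_p - KA z σ_p) = U (gg z) σ_p + N_p z / Q z ^ 2`. Multiply by `a_p = (deriv (br p) y)^2` and sum over `p`: the three sums converge absolutely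
(`lop_b0`; `gg z ∈ SS T` by `ss_step`, `gg c = v ∈ SS T`), so `∑ (C a_p * N_p).eval z` converges for `z ∈ S'`, an infinite set: `Pool.Agent.H1.PU.lim_hasSum` gives `N2` of degree `≤ 2 d` with `dg z (Lop (U z) y - Lop (KA z) y) = Lop (U (gg z)) y + N2 z / Q z ^ 2`. Add: `N = N1 + N2`.
-/

set_option autoImplicit false

open Filter Topology Polynomial OnePoint Metric Set MeasureTheory

namespace Pool.Agent.H31.PP

open Pool.Agent.H44.Fatou Pool.Agent.H32.BT Pool.Agent.H80.AJ Pool.Agent.H35.EX Pool.Agent.H61.TT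
open Pool.Agent.H79.Eul Pool.Agent.H79.Par Pool.Agent.H47.NN Pool.Agent.H71.Top
open Pool.Agent.H42.PP
open Pool.Agent.H1.PU (rho IX br Nice Av EE RR R1 g1 LAM KA EA Crt JP)

variable {d : ℕ} {P Q : Polynomial ℂ} {PA : Set (OnePoint ℂ)} {x c : ℂ} {s : ℝ} {A B0 T : Set ℂ} {U : ℂ → ℂ → ℂ}

private theorem q_ne (hc : Crt P Q c) : Q.eval c ≠ 0 := by
  intro hq
  apply hc.ninf 1 0
  show rat P Q (c : OnePoint ℂ) = ∞
  rw [rat_coe]
  unfold pt
  rw [if_pos hq]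

theorem c_lam (hD : Dsc d P Q PA A B0 T c x s) (hc : Crt P Q c) (hv : ((gg P Q c : ℂ) : OnePoint ℂ) ∈ PA) :
    c ∈ LAM P Q x s := by
  have h0 := hD.b.s0
  intro n u hu he
  cases n with
  | zero =>
    have h1 : c = u := by
      rw [Function.iterate_zero, id] at he
      exact OnePoint.coe_injective he
    exact hD.nc (h1 ▸ hu)
  | succ n =>
    rw [Function.iterate_succ_apply, rat_coe_of_ne (q_ne hc)] at he
    have h1 : (rat P Q)^[n] ((gg P Q c : ℂ) : OnePoint ℂ) ∈ PA := iter_mem hD.b.sys.inv hv n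
    have h2 : (rat P Q)^[n] ((gg P Q c : ℂ) : OnePoint ℂ) = (u : OnePoint ℂ) := he
    rw [h2] at h1
    exact hD.b.off u (ball_subset_ball (by have := Pool.Agent.H1.PU.rho_ge h0; linarith) hu) h1

/-- sums over the exits of bounded holomorphic functions on `B0` -/
private theorem lop_b0 (hD : Dsc d P Q PA A B0 T c x s) :
    ∃ C : ℝ, 0 ≤ C ∧ ∀ (F : ℂ → ℂ) (M : ℝ), DifferentiableOn ℂ F B0 → (∀ y ∈ B0, ‖F y‖ ≤ M) →
      Pool.H50.ST.Bd x (6 * s) (C * M) (Pool.H50.ST.Lop (g1 P Q x s A) F) ∧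
      ∀ y ∈ ball x (6 * s), HasSum (fun p : R1 P Q x A =>
        deriv (br P Q x s p.1) y ^ 2 * F (br P Q x s p.1 y)) (Pool.H50.ST.Lop (g1 P Q x s A) F y) := by
  have h0 := hD.b.s0
  obtain ⟨u, hu1, hu2⟩ := hD.mj.r1
  have h6 : ball x (6 * s) ⊆ ball x (rho s) :=
    ball_subset_ball (by have := Pool.Agent.H1.PU.rho_ge h0; linarith)
  have hx : x ∈ ball x (6 * s) := mem_ball_self (by linarith)
  have hu0 : ∀ p, 0 ≤ u p := fun p => (by positivity : (0 : ℝ) ≤ _ ^ 2).trans (hu2 p x hx)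
  refine ⟨∑' p, u p, tsum_nonneg hu0, fun F M hF hM => ?_⟩
  have hb : ∀ (p : R1 P Q x A), ∀ y ∈ ball x (6 * s),
      ‖deriv (br P Q x s p.1) y ^ 2 * F (br P Q x s p.1 y)‖ ≤ u p * M := by
    intro p y hy
    rw [norm_mul, norm_pow]
    exact mul_le_mul (hu2 p y hy) (hM _ (hD.land p.1 p.2 y hy)) (norm_nonneg _) (hu0 p)
  have hs : Summable fun p => u p * M := hu1.mul_right M
  refine ⟨⟨?_, ?_⟩, ?_⟩
  · refine Complex.differentiableOn_tsum_of_summable_norm hs (fun p => ?_) isOpen_ball hb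
    have hd := (br_diff hD.b p.2.1).mono h6
    refine ((hd.deriv isOpen_ball).pow 2).mul (hF.comp hd fun y hy => hD.land p.1 p.2 y hy)
  · intro y hy
    rw [← tsum_mul_right]
    exact tsum_of_norm_bounded hs.hasSum fun p => hb p y hy
  · intro y hy
    exact (Summable.of_norm_bounded hs fun p => hb p y hy).hasSum

theorem sd_bd (hD : Dsc d P Q PA A B0 T c x s)
    (hU : UD d P Q (insert c (SS P Q T)) B0 (gg P Q c) U) {z : ℂ}
    (hz : z ∈ SS P Q T) : ∃ M : ℝ, Pool.H50.ST.Bd x (6 * s) M (SD P Q A U x s z) := by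
  obtain ⟨C, -, hC⟩ := ea_bd hD.b hD.mj
  obtain ⟨C', -, hC'⟩ := lop_b0 hD
  obtain ⟨hd, M, hM⟩ := hU.bd z (Or.inr hz)
  have h1 := (hC z (ss_lam hD.sub hz)).1
  have h2 := (hC' (U z) M hd hM).1
  exact ⟨_, h1.1.add h2.1, fun w hw => (norm_add_le _ _).trans (add_le_add (h1.2 w hw) (h2.2 w hw))⟩

theorem sd_cont (hD : Dsc d P Q PA A B0 T c x s)
    (hU : UD d P Q (insert c (SS P Q T)) B0 (gg P Q c) U)
    (hv : gg P Q c ∈ SS P Q T) (h0 : gg P Q c ≠ 0) (h1 : gg P Q c ≠ 1) {ε : ℝ} (hε : 0 < ε) :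
    ∃ δ : ℝ, 0 < δ ∧ ∀ z ∈ SS P Q T, ‖z - gg P Q c‖ < δ → ∀ y ∈ ball x (6 * s),
      ‖SD P Q A U x s z y - SD P Q A U x s (gg P Q c) y‖ ≤ ε := by
  obtain ⟨C, hC0, hC⟩ := lop_b0 hD
  obtain ⟨δ1, hδ1, h2⟩ := ea_cont hD.b hD.mj (ss_lam hD.sub hv) h0 h1 (half_pos hε)
  have hε' : 0 < ε / (2 * (1 + C)) := by positivity
  obtain ⟨δ2, hδ2, h3⟩ := hU.cont _ hε'
  refine ⟨min δ1 δ2, lt_min hδ1 hδ2, fun z hz hzv y hy => ?_⟩
  have h4 := h2 z (ss_lam hD.sub hz) (hzv.trans_le (min_le_left _ _)) y hy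
  have h5 := h3 z (Or.inr hz) (hzv.trans_le (min_le_right _ _))
  obtain ⟨hd1, M1, hM1⟩ := hU.bd z (Or.inr hz)
  obtain ⟨hd2, M2, hM2⟩ := hU.bd (gg P Q c) (Or.inr hv)
  have h6 := (hC (U z) M1 hd1 hM1).2 y hy
  have h7 := (hC (U (gg P Q c)) M2 hd2 hM2).2 y hy
  have h8 := hC (fun w => U z w - U (gg P Q c) w) (ε / (2 * (1 + C))) (hd1.sub hd2) h5
  have h9 : Pool.H50.ST.Lop (g1 P Q x s A) (fun w => U z w - U (gg P Q c) w) y =
      Pool.H50.ST.Lop (g1 P Q x s A) (U z) y - Pool.H50.ST.Lop (g1 P Q x s A) (U (gg P Q c)) y := by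
    refine (h8.2 y hy).unique ?_
    have h10 := h6.sub h7
    simpa only [mul_sub] using h10
  have h10 := h8.1.2 y hy
  rw [h9] at h10
  have h11 : C * (ε / (2 * (1 + C))) ≤ ε / 2 := by
    rw [mul_div_assoc', div_le_div_iff₀ (by positivity) (by norm_num)]
    nlinarith
  have h12 : SD P Q A U x s z y - SD P Q A U x s (gg P Q c) y =
      (EA P Q x s A z y - EA P Q x s A (gg P Q c) y) +
        (Pool.H50.ST.Lop (g1 P Q x s A) (U z) y -
          Pool.H50.ST.Lop (g1 P Q x s A) (U (gg P Q c)) y) := by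
    unfold SD
    ring
  rw [h12]
  calc _ ≤ _ := norm_add_le _ _
    _ ≤ ε / 2 + C * (ε / (2 * (1 + C))) := add_le_add h4 h10
    _ ≤ ε := by linarith

theorem sd_idn (hD : Dsc d P Q PA A B0 T c x s)
    (hU : UD d P Q (insert c (SS P Q T)) B0 (gg P Q c) U) (hc : Crt P Q c)
    (hv : ((gg P Q c : ℂ) : OnePoint ℂ) ∈ PA) (hvS : gg P Q c ∈ SS P Q T)
    (hinf : {z : ℂ | z ∈ SS P Q T ∧ Q.eval z ≠ 0}.Infinite) {y : ℂ} (hy : y ∈ ball x (6 * s)) :
    ∃ N : Polynomial ℂ, N.natDegree ≤ 2 * d ∧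
      (∀ z ∈ SS P Q T, Q.eval z ≠ 0 →
        Pool.Agent.H61.TT.dg P Q z * (SD P Q A U x s z y - KA z y) =
          SD P Q A U x s (gg P Q z) y + N.eval z / Q.eval z ^ 2) ∧
      0 = SD P Q A U x s (gg P Q c) y + N.eval c / Q.eval c ^ 2 := by
  have hqc := q_ne hc
  set S' : Set ℂ := {z | z ∈ insert c (SS P Q T) ∧ Q.eval z ≠ 0} with hS'
  have hstep : ∀ z ∈ S', gg P Q z ∈ SS P Q T := by
    rintro z ⟨hz, hq⟩
    rcases hz with rfl | hz
    · exact hvS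
    · exact ss_step P Q T hz hq
  have hSinf : S'.Infinite := hinf.mono fun z hz => ⟨Or.inr hz.1, hz.2⟩
  obtain ⟨K0, -, hC⟩ := lop_b0 hD
  have hS1 : ∀ z ∈ S', z ∈ LAM P Q x s ∧ Q.eval z ≠ 0 ∧ BK P Q x s A z := by
    rintro z ⟨hz, hq⟩
    refine ⟨?_, hq, ?_⟩
    · rcases hz with rfl | hz
      · exact c_lam hD hc hv
      · exact ss_lam hD.sub hz
    · obtain ⟨-, M, hM⟩ := hU.kb z hz
      exact ⟨M, fun p hp w hw => hM _ (hD.land p hp w hw)⟩
  obtain ⟨N1, hN1, hN1'⟩ := idn hD.b hD.mj hS1 hSinf hy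
  -- the exits
  have hex : ∀ p : R1 P Q x A, ∃ N : Polynomial ℂ, N.natDegree ≤ 2 * d ∧ ∀ z ∈ S',
      N.eval z = (Pool.Agent.H61.TT.dg P Q z * (deriv (br P Q x s p.1) y ^ 2 * U z (br P Q x s p.1 y) -
        deriv (br P Q x s p.1) y ^ 2 * KA z (br P Q x s p.1 y)) -
        deriv (br P Q x s p.1) y ^ 2 * U (gg P Q z) (br P Q x s p.1 y)) * Q.eval z ^ 2 := by
    intro p
    obtain ⟨N, hN, hN'⟩ := hU.idn _ (hD.land p.1 p.2 y hy)
    refine ⟨C (deriv (br P Q x s p.1) y ^ 2) * N, (natDegree_C_mul_le _ _).trans hN, ?_⟩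
    rintro z ⟨hz, hq⟩
    have h1 := hN' z hz hq
    rw [eval_mul, eval_C]
    have h2 : N.eval z = (Pool.Agent.H61.TT.dg P Q z * (U z (br P Q x s p.1 y) -
        KA z (br P Q x s p.1 y)) - U (gg P Q z) (br P Q x s p.1 y)) * Q.eval z ^ 2 := by
      rw [h1]
      field_simp
      ring
    rw [h2]
    ring
  choose N hN hN' using hex
  have hsum : ∀ z ∈ S', HasSum (fun p => (N p).eval z)
      ((Pool.Agent.H61.TT.dg P Q z * (Pool.H50.ST.Lop (g1 P Q x s A) (U z) y -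
        Pool.H50.ST.Lop (g1 P Q x s A) (KA z) y) -
        Pool.H50.ST.Lop (g1 P Q x s A) (U (gg P Q z)) y) * Q.eval z ^ 2) := by
    intro z hz
    obtain ⟨hd1, M1, hM1⟩ := hU.bd z hz.1
    obtain ⟨hd2, M2, hM2⟩ := hU.kb z hz.1
    obtain ⟨hd3, M3, hM3⟩ := hU.bd (gg P Q z) (Or.inr (hstep z hz))
    have h1 := (hC (U z) M1 hd1 hM1).2 y hy
    have h2 := (hC (KA z) M2 hd2 hM2).2 y hy
    have h3 := (hC (U (gg P Q z)) M3 hd3 hM3).2 y hy
    have h4 := (((h1.sub h2).mul_left (Pool.Agent.H61.TT.dg P Q z)).sub h3).mul_right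
      (Q.eval z ^ 2)
    have h5 : (fun p : R1 P Q x A => (N p).eval z) = fun p : R1 P Q x A =>
        (Pool.Agent.H61.TT.dg P Q z * (deriv (br P Q x s p.1) y ^ 2 * U z (br P Q x s p.1 y) -
        deriv (br P Q x s p.1) y ^ 2 * KA z (br P Q x s p.1 y)) -
        deriv (br P Q x s p.1) y ^ 2 * U (gg P Q z) (br P Q x s p.1 y)) * Q.eval z ^ 2 := by
      funext p
      exact hN' p z hz
    rw [h5]
    exact h4
  obtain ⟨N2, hN2, hN2'⟩ := Pool.Agent.H1.PU.lim_hasSum hN hSinf (fun z hz => (hsum z hz).summable)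
  have key : ∀ z ∈ S', Pool.Agent.H61.TT.dg P Q z * (SD P Q A U x s z y - KA z y) =
      SD P Q A U x s (gg P Q z) y + (N1 + N2).eval z / Q.eval z ^ 2 := by
    intro z hz
    have h1 := hN1' z hz
    have h2 := (hN2' z).unique (hsum z hz)
    have hq := hz.2
    rw [eval_add, h2]
    unfold SD
    have h3 : (N1.eval z + (Pool.Agent.H61.TT.dg P Q z * (Pool.H50.ST.Lop (g1 P Q x s A) (U z) y -
        Pool.H50.ST.Lop (g1 P Q x s A) (KA z) y) -
        Pool.H50.ST.Lop (g1 P Q x s A) (U (gg P Q z)) y) * Q.eval z ^ 2) / Q.eval z ^ 2 =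
        N1.eval z / Q.eval z ^ 2 + (Pool.Agent.H61.TT.dg P Q z *
          (Pool.H50.ST.Lop (g1 P Q x s A) (U z) y -
        Pool.H50.ST.Lop (g1 P Q x s A) (KA z) y) -
        Pool.H50.ST.Lop (g1 P Q x s A) (U (gg P Q z)) y) := by
      field_simp
    rw [h3]
    linear_combination h1
  refine ⟨N1 + N2, (natDegree_add_le _ _).trans (max_le hN1 hN2),
    fun z hz hq => key z ⟨Or.inr hz, hq⟩, ?_⟩
  have h1 := key c ⟨Or.inl rfl, hqc⟩
  have h2 : Pool.Agent.H61.TT.dg P Q c = 0 := by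
    unfold Pool.Agent.H61.TT.dg
    rw [hc.w, zero_div]
  rw [h2, zero_mul] at h1
  exact h1

end Pool.Agent.H31.PP
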