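import Pool.Agent.H50.ST.XiA

/-!
# [H31 PP XiG] the cohomological equation for a general functional

PROOF. Copy of `xi_one` (H50/ST/XiA) with `Lop = 0`; `Fn1` is `Fnl` without `res`.
-/

set_option autoImplicit false

namespace Pool.Agent.H31.PP

open Metric Polynomial Pool.Agent.H61.TT Pool.H50.ST

/-- the properties of a functional on the bounded holomorphic functions on a disc -/
structure Fn1 (x : ℂ) (r : ℝ) (Λ : (ℂ → ℂ) → ℂ) (C₀ : ℝ) : Prop where
  nn : 0 ≤ C₀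
  add : ∀ F G M N, Bd x r M F → Bd x r N G → Λ (fun w => F w + G w) = Λ F + Λ G
  smul : ∀ z F M, Bd x r M F → Λ (fun w => z * F w) = z * Λ F
  bd : ∀ F M, 0 ≤ M → Bd x r M F → ‖Λ F‖ ≤ C₀ * M
  congr : ∀ F G, (∀ w ∈ ball x r, F w = G w) → Λ F = Λ G

private theorem f1_zero {x : ℂ} {r : ℝ} {Λ : (ℂ → ℂ) → ℂ} {C₀ : ℝ} (h : Fn1 x r Λ C₀) :
    Λ (fun _ => 0) = 0 := by
  have h1 := h.smul 0 (fun _ => 0) 0 ⟨differentiableOn_const 0, fun w _ => by rw [norm_zero]⟩
  simpa using h1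

private theorem f1_sum {x : ℂ} {r : ℝ} {Λ : (ℂ → ℂ) → ℂ} {C₀ : ℝ} (h : Fn1 x r Λ C₀)
    (s : Finset ℂ) (l : ℂ → ℂ) (F : ℂ → ℂ → ℂ) (hF : ∀ j ∈ s, ∃ M, Bd x r M (F j)) :
    (∃ M, Bd x r M (fun w => ∑ j ∈ s, l j * F j w)) ∧
      Λ (fun w => ∑ j ∈ s, l j * F j w) = ∑ j ∈ s, l j * Λ (F j) := by
  classical
  induction s using Finset.induction_on with
  | empty =>
    refine ⟨⟨0, ?_⟩, ?_⟩
    · simp only [Finset.sum_empty]
      exact ⟨differentiableOn_const 0, fun w _ => by rw [norm_zero]⟩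
    · simp only [Finset.sum_empty]
      exact f1_zero h
  | insert j s hj ih =>
    obtain ⟨⟨M, hM⟩, h2⟩ := ih fun i hi => hF i (Finset.mem_insert_of_mem hi)
    obtain ⟨N, hN⟩ := hF j (Finset.mem_insert_self j s)
    have h3 := bd_mul (l j) hN
    simp only [Finset.sum_insert hj]
    refine ⟨⟨_, bd_add h3 hM⟩, ?_⟩
    rw [h.add _ _ _ _ h3 hM, h.smul _ _ _ hN, h2]

theorem xi_gen {x : ℂ} {r : ℝ} {Λ : (ℂ → ℂ) → ℂ} {C₀ : ℝ} (h : Fn1 x r Λ C₀) {d : ℕ}
    {a b : Polynomial ℂ} {c : ℂ} {E K : ℂ → ℂ → ℂ} {S : Set ℂ}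
    (hS : S.Infinite) (hSb : ∀ z ∈ S, b.eval z ≠ 0)
    (hE : ∀ z ∈ S, ∃ M, Bd x r M (E z)) (hE' : ∀ z ∈ S, ∃ M, Bd x r M (E (gg a b z)))
    (hK : ∀ z ∈ S, ∃ M, Bd x r M (K z)) (hbc : b.eval c ≠ 0) (hEc : ∃ M, Bd x r M (E (gg a b c)))
    (hid : ∀ w ∈ ball x r, ∃ η : Polynomial ℂ, η.natDegree ≤ 2 * d ∧
      (∀ z ∈ S, dg a b z * (E z w - K z w) = E (gg a b z) w + η.eval z / b.eval z ^ 2) ∧
      0 = E (gg a b c) w + η.eval c / b.eval c ^ 2) :
    ∃ q : Polynomial ℂ, q.natDegree ≤ 2 * d ∧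
      (∀ z ∈ S, dg a b z * (Λ (E z) - Λ (K z)) = Λ (E (gg a b z)) + q.eval z / b.eval z ^ 2) ∧
      0 = Λ (E (gg a b c)) + q.eval c / b.eval c ^ 2 := by
  classical
  obtain ⟨s, hsS, hcard⟩ := hS.exists_subset_card_eq (2 * d + 1)
  -- the function of the node
  obtain ⟨N, hN⟩ : ∃ N : ℂ → ℂ → ℂ, ∀ z w, N z w = b.eval z ^ 2 *
      (dg a b z * (E z w + (-1) * K z w) + (-1) * E (gg a b z) w) :=
    ⟨_, fun _ _ => rfl⟩
  have hNb : ∀ z ∈ S, (∃ M, Bd x r M (N z)) ∧ Λ (N z) = b.eval z ^ 2 *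
      (dg a b z * (Λ (E z) - Λ (K z)) - Λ (E (gg a b z))) := by
    intro z hz
    obtain ⟨M1, h1⟩ := hE z hz
    obtain ⟨M2, h2⟩ := hE' z hz
    obtain ⟨M3, h3⟩ := hK z hz
    have e : N z = fun w => b.eval z ^ 2 * (dg a b z * (E z w + (-1) * K z w) +
        (-1) * E (gg a b z) w) := funext (hN z)
    rw [e]
    have b3 := bd_mul (-1) h3
    have b4 := bd_add h1 b3
    have b5 := bd_mul (dg a b z) b4
    have b6 := bd_mul (-1) h2
    have b7 := bd_add b5 b6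
    refine ⟨⟨_, bd_mul _ b7⟩, ?_⟩
    rw [h.smul _ _ _ b7, h.add _ _ _ _ b5 b6, h.smul _ _ _ b4, h.add _ _ _ _ h1 b3,
      h.smul _ _ _ h3, h.smul _ _ _ h2]
    ring
  have hNe : ∀ z ∈ S, ∀ w ∈ ball x r, ∀ η : Polynomial ℂ,
      dg a b z * (E z w - K z w) =
        E (gg a b z) w + η.eval z / b.eval z ^ 2 → N z w = η.eval z := by
    intro z hz w hw η he
    have hb := hSb z hz
    rw [hN]
    have e1 : dg a b z * (E z w + (-1) * K z w) =
        E (gg a b z) w + η.eval z / b.eval z ^ 2 := by rw [← he]; ring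
    rw [e1]
    field_simp
    ring
  -- interpolation
  have hint : ∀ η : Polynomial ℂ, η.natDegree ≤ 2 * d → ∀ z : ℂ,
      η.eval z = ∑ j ∈ s, (Lagrange.basis s id j).eval z * η.eval j := by
    intro η hη z
    have h1 : η.degree < s.card := by
      rw [hcard]
      refine lt_of_le_of_lt degree_le_natDegree ?_
      exact_mod_cast (by omega : η.natDegree < 2 * d + 1)
    have h2 := Lagrange.eq_interpolate (v := (id : ℂ → ℂ)) (Set.injOn_id _) h1
    conv_lhs => rw [h2]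
    rw [Lagrange.interpolate_apply, eval_finsetSum]
    refine Finset.sum_congr rfl fun j _ => ?_
    rw [eval_mul, eval_C, id, mul_comm]
  refine ⟨∑ j ∈ s, C (Λ (N j)) * Lagrange.basis s id j, ?_, ?_, ?_⟩
  · refine natDegree_sum_le_of_forall_le _ _ fun j hj => ?_
    refine (natDegree_C_mul_le _ _).trans ?_
    rw [Lagrange.natDegree_basis (Set.injOn_id _) hj, hcard]
    omega
  · intro z hz
    have hb := hSb z hz
    have h1 := (f1_sum h s (fun j => (Lagrange.basis s id j).eval z) N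
      fun j hj => (hNb j (hsS hj)).1).2
    have h2 : Λ (N z) = Λ (fun w => ∑ j ∈ s, (Lagrange.basis s id j).eval z * N j w) := by
      refine h.congr _ _ fun w hw => ?_
      obtain ⟨η, hη, h3, -⟩ := hid w hw
      rw [hNe z hz w hw η (h3 z hz), hint η hη z]
      refine Finset.sum_congr rfl fun j hj => ?_
      rw [hNe j (hsS hj) w hw η (h3 j (hsS hj))]
    rw [h1, (hNb z hz).2] at h2
    rw [eval_finsetSum]
    have h4 : ∑ j ∈ s, eval z (C (Λ (N j)) * Lagrange.basis s id j) =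
        ∑ j ∈ s, (Lagrange.basis s id j).eval z * Λ (N j) :=
      Finset.sum_congr rfl fun j _ => by rw [eval_mul, eval_C, mul_comm]
    rw [h4, ← h2]
    field_simp
    ring
  · have h1 := (f1_sum h s (fun j => (Lagrange.basis s id j).eval c) N
      fun j hj => (hNb j (hsS hj)).1).2
    obtain ⟨M, hM⟩ := hEc
    have h2 : Λ (fun w => (-b.eval c ^ 2) * E (gg a b c) w) =
        Λ (fun w => ∑ j ∈ s, (Lagrange.basis s id j).eval c * N j w) := by
      refine h.congr _ _ fun w hw => ?_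
      obtain ⟨η, hη, h3, h4⟩ := hid w hw
      have h5 : (-b.eval c ^ 2) * E (gg a b c) w = η.eval c := by
        have h6 : E (gg a b c) w = -(η.eval c / b.eval c ^ 2) := by linear_combination -h4
        rw [h6]
        field_simp
      rw [h5, hint η hη c]
      refine Finset.sum_congr rfl fun j hj => ?_
      rw [hNe j (hsS hj) w hw η (h3 j (hsS hj))]
    rw [h1, h.smul _ _ _ hM] at h2
    rw [eval_finsetSum]
    have h4 : ∑ j ∈ s, eval c (C (Λ (N j)) * Lagrange.basis s id j) =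
        ∑ j ∈ s, (Lagrange.basis s id j).eval c * Λ (N j) :=
      Finset.sum_congr rfl fun j _ => by rw [eval_mul, eval_C, mul_comm]
    rw [h4, ← h2]
    field_simp
    ring

end Pool.Agent.H31.PP
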