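import Pool.Agent.H31.PP.Sdm
import Pool.Agent.H42.PP.Base
import Pool.Agent.H31.PP.Fun
import Pool.Agent.H31.PP.XiG

/-!
# [H31 PP XiP] the cohomological equation (X) of THEOREM P+

PROOF. `S = {z ∈ SS T, Q z ≠ 0}` is infinite (as `lam_inf`, H1/PU/Xi: the points `f^(n+1) c` are finite (`crt.ninf`), different (`crt.inf`) and in `SS T` (`vS`, `ss_step`)). `tsupport (dbar1 χ)` is compact (`cut.cs`; `dbar1 χ` vanishes off `tsupport χ`), covered by the balls `ball x (s x)`, `x ∈ tsupport (dbar1 χ)`, of `cov`: a finite subcover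
`x j`, `s j`, `j : Fin n` (`IsCompact.elim_finite_subcover` or `elim_nhds_subcover`, then `Fintype.equivFin` or `List.get`). `L j = ball (x j) (s j) \ ⋃_(i < j) ball (x i) (s i)`: disjoint, measurable, with the same union. `Λ j = PhiF χ c k (L j)` is a functional `Fn1 (x j) (6 s j)` (`phi_add`, ..., Fun). Multiplicity: `ww P Q = (X - C c)^(k+1) * W`, `W c ≠ 0`
(as at the beginning of the proof of `xi_main`, H1/PU/Xi). `xi_gen` for every `j` with `E = SD (x j) (s j)`, `K = KA` (`sd_bd`, `sd_idn`; `KA z` is bounded on `ball (x j) (6 s j)` for `z ∈ SS T`: `ka_far`, H42/PP/Base, `lam_far`, `ss_lam`): `q j`. `Ξ z = ∑ j, Λ j (SD .. z)`,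
`∑ j, Λ j (KA z) = iteratedDeriv k (KA z) c` (`phi_tot`; `z ∉ T ⊇ tsupport χ`: time `0` in `SS T`; `0, 1 ∉ T`). Sum over `j` and `Pool.H50.ST.xi_two` (`Kn = KA` by `rfl`; `c ∉ S` because `c ∈ tsupport χ ⊆ T`; `c ≠ 0, 1` in the same way). Continuity: `sd_cont` for every `j` with `ε / (n (C_j + 1))` and `Fn1.bd` for the difference.
-/

set_option autoImplicit false

open Filter Topology Polynomial OnePoint Metric Set MeasureTheory

namespace Pool.Agent.H31.PP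

open Pool.Agent.H44.Fatou Pool.Agent.H32.BT Pool.Agent.H80.AJ Pool.Agent.H35.EX Pool.Agent.H61.TT
open Pool.Agent.H79.Eul Pool.Agent.H79.Par Pool.Agent.H47.NN Pool.Agent.H71.Top
open Pool.Agent.H42.PP
open Pool.Agent.H1.PU (rho IX br Nice Av EE RR R1 g1 LAM KA EA Crt JP)

variable {d : ℕ} {v : E d} {PA : Set (OnePoint ℂ)} {c : ℂ} {A B0 T : Set ℂ} {U : ℂ → ℂ → ℂ} {χ : ℂ → ℂ}
  {b : Finset ℂ}

private theorem xp_q (h : PD3 v PA c A B0 T U χ b) : (pol v.2).eval c ≠ 0 := by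
  intro h0
  apply h.crt.ninf 1 0
  rw [Function.iterate_one, rat_coe, h0]
  unfold pt
  rw [if_pos rfl]
  rfl

private theorem xp_time {z : ℂ} (hz : z ∈ SS (pol v.1) (pol v.2) T) : z ∉ T :=
  fun hT => hz 0 z hT rfl

private theorem xp_dc (h : PD3 v PA c A B0 T U χ b) : IsCompact (tsupport (dbar1 χ)) := by
  have h1 : HasCompactSupport (dbar1 χ) := by
    refine HasCompactSupport.of_support_subset_isCompact h.cut.cs ?_
    intro y hy
    by_contra hcon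
    apply hy
    have h2 : fderiv ℝ χ y = 0 := by
      by_contra h3
      exact hcon (tsupport_fderiv_subset ℝ (subset_tsupport _ h3))
    unfold dbar1
    rw [h2]
    simp
  exact h1

private theorem xp_fn {x : ℂ} {r : ℝ} {K : Set ℂ} (k : ℕ) (h : PD3 v PA c A B0 T U χ b)
    (hK : MeasurableSet K) (hKr : K ⊆ ball x r) : ∃ C : ℝ, Fn1 x r (PhiF χ c k K) C := by
  obtain ⟨C, hC, hb⟩ := phi_bd (k := k) h.cut.sm h.cut.cs h.cut.one hK hKr
  exact ⟨C, hC, fun F G M N hF hG => phi_add h.cut.sm h.cut.cs h.cut.one hK hKr hF hG,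
    fun z F M hF => phi_smul h.cut.sm h.cut.cs h.cut.one hK hKr z hF, hb,
    fun F G hFG => phi_congr hK hKr hFG⟩

private theorem xp_diff {x : ℂ} {r C₀ : ℝ} {Λ : (ℂ → ℂ) → ℂ} (h : Fn1 x r Λ C₀) {F G : ℂ → ℂ}
    {M1 M2 e : ℝ} (he : 0 ≤ e) (hF : Pool.H50.ST.Bd x r M1 F) (hG : Pool.H50.ST.Bd x r M2 G)
    (hd : ∀ y ∈ ball x r, ‖F y - G y‖ ≤ e) : ‖Λ F - Λ G‖ ≤ C₀ * e := by
  have h7 : Λ (fun w => F w + (-1) * G w) = Λ F + (-1) * Λ G := by
    rw [h.add _ _ _ _ hF (Pool.H50.ST.bd_mul (-1) hG), h.smul _ _ _ hG]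
  have h8 : ‖Λ (fun w => F w + (-1) * G w)‖ ≤ C₀ * e := by
    refine h.bd _ _ he ⟨(Pool.H50.ST.bd_add hF (Pool.H50.ST.bd_mul (-1) hG)).1, ?_⟩
    intro w hw
    have e1 : F w + (-1) * G w = F w - G w := by ring
    show ‖F w + (-1) * G w‖ ≤ _
    rw [e1]
    exact hd w hw
  have h9 : Λ F - Λ G = Λ F + (-1) * Λ G := by ring
  rw [h9, ← h7]
  exact h8

/-- a finite disjoint cover -/
private theorem xp_cover {Z : Set ℂ} (hZ : IsCompact Z) {s : ℂ → ℝ} (hs : ∀ x ∈ Z, 0 < s x) :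
    ∃ (n : ℕ) (x : Fin n → ℂ) (L : Fin n → Set ℂ), (∀ j, x j ∈ Z) ∧ (∀ j, MeasurableSet (L j)) ∧
      (∀ j, L j ⊆ ball (x j) (s (x j))) ∧ Pairwise (Function.onFun Disjoint L) ∧ Z ⊆ ⋃ j, L j := by
  obtain ⟨t, ht, hcov⟩ := hZ.elim_nhds_subcover (fun x => ball x (s x))
    (fun x hx => ball_mem_nhds x (hs x hx))
  obtain ⟨e⟩ : Nonempty (Fin t.card ≃ t) := ⟨t.equivFin.symm⟩
  refine ⟨t.card, fun j => (e j : ℂ), disjointed fun j => ball (e j : ℂ) (s (e j : ℂ)),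
    fun j => ht _ (e j).2, fun j => ?_, fun j => disjointed_subset _ j, disjoint_disjointed _, ?_⟩
  · exact disjointedRec (p := fun S : Set ℂ => MeasurableSet S)
      (fun S i hS => hS.diff measurableSet_ball) measurableSet_ball
  · rw [iUnion_disjointed]
    intro y hy
    obtain ⟨z, hz, hyz⟩ := mem_iUnion₂.1 (hcov hy)
    refine mem_iUnion.2 ⟨e.symm ⟨z, hz⟩, ?_⟩
    rw [Equiv.apply_symm_apply]
    exact hyz

theorem ss_inf (h : PD3 v PA c A B0 T U χ b) :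
    {z : ℂ | z ∈ SS (pol v.1) (pol v.2) T ∧ (pol v.2).eval z ≠ 0}.Infinite := by
  have hy : ∀ n : ℕ, ∃ y : ℂ, (rat (pol v.1) (pol v.2))^[n + 1] (c : OnePoint ℂ) = (y : OnePoint ℂ) := by
    intro n
    have h1 := h.crt.ninf (n + 1) 0
    obtain ⟨y, hy⟩ := OnePoint.ne_infty_iff_exists.1 h1
    exact ⟨y, hy.symm⟩
  choose y hy using hy
  have hinj : Function.Injective y := by
    intro m n hmn
    rcases lt_trichotomy m n with h1 | h1 | h1
    · exact absurd (by rw [hy m, hy n, hmn]) (h.crt.inf (m + 1) (n + 1) (by omega))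
    · exact h1
    · exact absurd (by rw [hy m, hy n, hmn]) (h.crt.inf (n + 1) (m + 1) (by omega))
  have hQc := xp_q h
  have hQ0 : pol v.2 ≠ 0 := by
    intro h0
    rw [h0] at hQc
    exact hQc eval_zero
  have hfin : {z : ℂ | (pol v.2).eval z = 0}.Finite := by
    have h1 : {z : ℂ | (pol v.2).eval z = 0} = {z : ℂ | (pol v.2).IsRoot z} := rfl
    rw [h1]
    exact Polynomial.finite_setOfPred_isRoot hQ0
  have hinf := (Set.infinite_range_of_injective hinj).sdiff hfin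
  refine hinf.mono ?_
  rintro _ ⟨⟨n, rfl⟩, hn⟩
  refine ⟨?_, hn⟩
  intro m u hu he
  have hv0 : ((gg (pol v.1) (pol v.2) c : ℂ) : OnePoint ℂ) =
      rat (pol v.1) (pol v.2) (c : OnePoint ℂ) := (rat_coe_of_ne hQc).symm
  apply h.vS (m + n) u hu
  rw [hv0, Function.iterate_add_apply, ← Function.iterate_succ_apply, hy n]
  exact he

theorem xi_pp (h : PD3 v PA c A B0 T U χ b) :
    ∃ (Ξ : ℂ → ℂ) (η : Polynomial ℂ) (κ : ℂ), κ ≠ 0 ∧ η.natDegree ≤ 2 * d ∧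
      (∀ a ∈ SS (pol v.1) (pol v.2) T, (pol v.2).eval a ≠ 0 →
        Ξ (gg (pol v.1) (pol v.2) a) = Pool.Agent.H61.TT.dg (pol v.1) (pol v.2) a * Ξ a +
          η.eval a / (pol v.2).eval a ^ 2) ∧
      η.eval c / (pol v.2).eval c ^ 2 = Ξ (gg (pol v.1) (pol v.2) c) + κ ∧
      ∀ ε : ℝ, 0 < ε → ∃ t : ℝ, 0 < t ∧ ∀ a ∈ SS (pol v.1) (pol v.2) T,
        ‖a - gg (pol v.1) (pol v.2) c‖ < t → ‖Ξ a - Ξ (gg (pol v.1) (pol v.2) c)‖ ≤ ε := by
  have hQ := xp_q h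
  choose! s hsD using h.cov
  obtain ⟨n, x, L, hx, hLm, hLb, hLd, hLc⟩ := xp_cover (xp_dc h) (s := s)
    (fun x hx => (hsD x hx).b.s0)
  have hcT : c ∈ T := by
    apply h.cut.sub
    apply subset_tsupport
    have h1 : χ c = 1 := h.cut.one.self_of_nhds
    show χ c ≠ 0
    rw [h1]
    exact one_ne_zero
  have hc0 : c ≠ 0 := by
    rintro h0
    rw [h0] at hcT
    exact h.t0 hcT
  have hc1 : c ≠ 1 := by
    rintro h0
    rw [h0] at hcT
    exact h.t1 hcT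
  have hinf := ss_inf h
  -- the multiplicity of the critical point
  obtain ⟨W, hW, hWd⟩ := Polynomial.exists_eq_pow_rootMultiplicity_mul_and_not_dvd
    (ww (pol v.1) (pol v.2)) (ww_ne h.rd) c
  have hm : 0 < (ww (pol v.1) (pol v.2)).rootMultiplicity c :=
    (Polynomial.rootMultiplicity_pos (ww_ne h.rd)).2 h.crt.w
  obtain ⟨k, hk⟩ := Nat.exists_eq_add_of_le' hm
  have hWc : W.eval c ≠ 0 := fun h0 => hWd (dvd_iff_isRoot.2 h0)
  rw [hk] at hW
  have hL6 : ∀ j, L j ⊆ ball (x j) (6 * s (x j)) := fun j =>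
    (hLb j).trans (ball_subset_ball (by have := (hsD (x j) (hx j)).b.s0; linarith))
  choose C hF using fun j => xp_fn k h (hLm j) (hL6 j)
  have hSD : ∀ j, ∀ z ∈ SS (pol v.1) (pol v.2) T, ∃ M, Pool.H50.ST.Bd (x j) (6 * s (x j)) M
      (SD (pol v.1) (pol v.2) A U (x j) (s (x j)) z) := fun j z hz => sd_bd (hsD (x j) (hx j)) h.ud hz
  have hKA : ∀ j, ∀ z ∈ SS (pol v.1) (pol v.2) T, ∃ M, Pool.H50.ST.Bd (x j) (6 * s (x j)) M
      (KA z) := fun j z hz => Pool.Agent.H42.PB.ka_far (hsD (x j) (hx j)).b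
        (Pool.Agent.H42.PB.lam_far (ss_lam (hsD (x j) (hx j)).sub hz))
  have hgen := fun j => xi_gen (hF j) (d := d) (a := pol v.1) (b := pol v.2) (c := c)
    (E := fun z => SD (pol v.1) (pol v.2) A U (x j) (s (x j)) z) (K := KA)
    (S := {z : ℂ | z ∈ SS (pol v.1) (pol v.2) T ∧ (pol v.2).eval z ≠ 0}) hinf
    (fun z hz => hz.2) (fun z hz => hSD j z hz.1)
    (fun z hz => hSD j _ (ss_step (pol v.1) (pol v.2) T hz.1 hz.2)) (fun z hz => hKA j z hz.1)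
    hQ (hSD j _ h.vS) (fun w hw => by
      obtain ⟨N, hN, h1, h2⟩ := sd_idn (hsD (x j) (hx j)) h.ud h.crt h.vPA h.vS hinf hw
      exact ⟨N, hN, fun z hz => h1 z hz.1 hz.2, h2⟩)
  choose q hq hq1 hq2 using hgen
  obtain ⟨Ξ, hΞ⟩ : ∃ Ξ : ℂ → ℂ, ∀ z, Ξ z =
      ∑ j, PhiF χ c k (L j) (SD (pol v.1) (pol v.2) A U (x j) (s (x j)) z) := ⟨_, fun _ => rfl⟩
  have hqd : (∑ j, q j).natDegree ≤ 2 * d :=
    Polynomial.natDegree_sum_le_of_forall_le _ _ fun j _ => hq j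
  have hX1 : ∀ z ∈ {z : ℂ | z ∈ SS (pol v.1) (pol v.2) T ∧ (pol v.2).eval z ≠ 0},
      Pool.Agent.H61.TT.dg (pol v.1) (pol v.2) z *
        (Ξ z - iteratedDeriv k (Pool.H50.ST.Kn z) c) =
      Ξ (gg (pol v.1) (pol v.2) z) + (∑ j, q j).eval z / (pol v.2).eval z ^ 2 := by
    intro z hz
    have h1 : iteratedDeriv k (Pool.H50.ST.Kn z) c = ∑ j, PhiF χ c k (L j) (KA z) := by
      rw [phi_tot h.cut.sm h.cut.cs h.cut.one hLm hLd hLc (fun h0 => h.t0 (h.cut.sub h0))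
        (fun h0 => h.t1 (h.cut.sub h0)) (fun h0 => xp_time hz.1 (h.cut.sub h0))]
      rfl
    rw [h1, hΞ, hΞ, ← Finset.sum_sub_distrib, Finset.mul_sum, eval_finsetSum, Finset.sum_div,
      ← Finset.sum_add_distrib]
    exact Finset.sum_congr rfl fun j _ => hq1 j z hz
  have hX2 : 0 = Ξ (gg (pol v.1) (pol v.2) c) + (∑ j, q j).eval c / (pol v.2).eval c ^ 2 := by
    rw [hΞ, eval_finsetSum, Finset.sum_div, ← Finset.sum_add_distrib]
    exact (Finset.sum_eq_zero fun j _ => (hq2 j).symm).symm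
  obtain ⟨η, κ, hκ, hη, hη1, hη2⟩ := Pool.H50.ST.xi_two h.rd hQ hW hWc hc0 hc1
    (Ξ := Ξ) (S := {z : ℂ | z ∈ SS (pol v.1) (pol v.2) T ∧ (pol v.2).eval z ≠ 0})
    (fun z hz => hz.2) (fun hcS => xp_time hcS.1 hcT) hqd hX1 hX2
  refine ⟨Ξ, η, κ, hκ, hη, fun z hz hzQ => hη1 z ⟨hz, hzQ⟩, hη2, ?_⟩
  intro ε hε
  have hCn : ∀ j, 0 ≤ C j := fun j => (hF j).nn
  have hcon : ∀ j, ∃ δ : ℝ, 0 < δ ∧ ∀ z ∈ SS (pol v.1) (pol v.2) T,
      ‖z - gg (pol v.1) (pol v.2) c‖ < δ →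
      ‖PhiF χ c k (L j) (SD (pol v.1) (pol v.2) A U (x j) (s (x j)) z) -
        PhiF χ c k (L j) (SD (pol v.1) (pol v.2) A U (x j) (s (x j)) (gg (pol v.1) (pol v.2) c))‖ ≤
        ε / (n + 1) := by
    intro j
    have hj := hCn j
    have he : 0 < ε / ((n + 1) * (C j + 1)) := by positivity
    obtain ⟨δ, hδ, hcon⟩ := sd_cont (hsD (x j) (hx j)) h.ud h.vS h.crt.v0 h.crt.v1 he
    refine ⟨δ, hδ, fun z hz hzv => ?_⟩
    obtain ⟨M1, hM1⟩ := hSD j z hz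
    obtain ⟨M2, hM2⟩ := hSD j _ h.vS
    refine (xp_diff (hF j) he.le hM1 hM2 (hcon z hz hzv)).trans ?_
    rw [mul_div_assoc', div_le_div_iff₀ (by positivity) (by positivity)]
    have h1 : 0 ≤ ε * ((n : ℝ) + 1) := by positivity
    nlinarith
  choose δ hδ hcon using hcon
  have hev : ∀ᶠ t in 𝓝[>] (0 : ℝ), ∀ j, t ≤ δ j := by
    rw [eventually_all]
    intro j
    exact mem_nhdsWithin_of_mem_nhds (Iic_mem_nhds (hδ j))
  obtain ⟨t, ht1, ht2⟩ := (hev.and self_mem_nhdsWithin).exists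
  refine ⟨t, ht2, fun a ha hav => ?_⟩
  rw [hΞ, hΞ, ← Finset.sum_sub_distrib]
  refine (norm_sum_le _ _).trans ?_
  refine (Finset.sum_le_sum fun j _ => hcon j a ha (lt_of_lt_of_le hav (ht1 j))).trans ?_
  rw [Finset.sum_const, Finset.card_univ, Fintype.card_fin, nsmul_eq_mul, mul_div_assoc',
    div_le_iff₀ (by positivity)]
  nlinarith

end Pool.Agent.H31.PP
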